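import Pool.Agent.R598.PM.Defs

/-!
# Compactness principles in a transitive model of ZF: definitions
-/

set_option autoImplicit false

namespace Pool.Agent.R598.LX

open Pool.Agent.W868 Pool.Agent.R598.PM
open ZFSet (pair)

/-- The map `h : Z → {0, 1}` is a homomorphism from the structure `(Z, E)` with one binary
relation to `K_2`: related elements have different values. -/
def Col (E Z h : ZFSet.{0}) : Prop :=
  ZFSet.IsFunc Z (nat 2) h ∧
    ∀ a ∈ Z, ∀ b ∈ Z, pair a b ∈ E → ∀ i, pair a i ∈ h → pair b i ∉ h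

/-- The compactness principle for `K_2` in the model `M`: if all finite substructures of `(X, E)`
have homomorphisms to `K_2`, then `(X, E)` has a homomorphism to `K_2`. -/
def KK2 (M : Set ZFSet.{0}) : Prop :=
  ∀ X ∈ M, ∀ E ∈ M, (∀ Z ∈ M, Z ⊆ X → FinIn M Z → ∃ h ∈ M, Col E Z h) → ∃ h ∈ M, Col E X h

/-- The map `h : Z → {0, 1}` is a homomorphism from the structure `(Z, R₀, R₁)` with two ternary
relations to `3LIN_2`: it satisfies the equations `a + b + c = 0` for the triples in `R₀` and the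
equations `a + b + c = 1` for the triples in `R₁`. -/
def Sol (R₀ R₁ Z h : ZFSet.{0}) : Prop :=
  ZFSet.IsFunc Z (nat 2) h ∧
    ∀ a ∈ Z, ∀ b ∈ Z, ∀ c ∈ Z, ∀ i j k : ℕ,
      pair a (nat i) ∈ h → pair b (nat j) ∈ h → pair c (nat k) ∈ h →
        (pair a (pair b c) ∈ R₀ → (i + j + k) % 2 = 0) ∧
        (pair a (pair b c) ∈ R₁ → (i + j + k) % 2 = 1)

/-- The compactness principle for `3LIN_2` in the model `M`: if all finite substructures of
`(X, R₀, R₁)` have homomorphisms to `3LIN_2`, then `(X, R₀, R₁)` has a homomorphism to `3LIN_2`. -/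
def K3LIN2 (M : Set ZFSet.{0}) : Prop :=
  ∀ X ∈ M, ∀ R₀ ∈ M, ∀ R₁ ∈ M,
    (∀ Z ∈ M, Z ⊆ X → FinIn M Z → ∃ h ∈ M, Sol R₀ R₁ Z h) → ∃ h ∈ M, Sol R₀ R₁ X h

/-- In the model `M`, every set of two-element sets has a choice function. -/
def AC2 (M : Set ZFSet.{0}) : Prop :=
  ∀ F ∈ M, (∀ b ∈ F, ∃ x y, x ≠ y ∧ b = {x, y}) →
    ∃ f ∈ M, ∀ b ∈ F, ∃ y ∈ b, ∀ z, pair b z ∈ f ↔ z = y

end Pool.Agent.R598.LX
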