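import Pool.Agent.R598.LX.Key2
import Pool.Agent.R598.LX.Defs

/-!
# The choice of elements of two-element sets in the model
-/

set_option autoImplicit false

namespace Pool.Agent.R598.LX

open Pool.Agent.W868 Pool.Agent.W868.PName Pool.Agent.R598.SY Pool.Agent.R598.PM
open ZFSet (pair)

/-- The condition forces that some good element of `B` is given by a name. -/
def Ds (W : Submodule K V) (B : PName Cd) (q : Cd) : Prop :=
  ∃ x, sy.HS x ∧ Fmem x B q ∧ Good W q B x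

theorem Ds.mono {W : Submodule K V} {B : PName Cd} {q q' : Cd} (h : Ds W B q) (hq : q' ≤ q) :
    Ds W B q' := by
  obtain ⟨x, h1, h2, h3⟩ := h
  exact ⟨x, h1, h2.mono hq, fun g hg r hr hr' => h3 g hg r (hr.trans hq) (hr'.trans (mv_le hq))⟩

/-- The base triples. -/
abbrev Jt (W : Submodule K V) (F : PName Cd) : Type := {t : Cd × F.idx // Ds W (F.chd t.2) t.1}

/-- The name of the base triple. -/
noncomputable def xt {W : Submodule K V} {F : PName Cd} (t : Jt W F) : PName Cd := t.2.choose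

theorem hs_xt {W : Submodule K V} {F : PName Cd} (t : Jt W F) : sy.HS (xt t) := t.2.choose_spec.1

theorem mem_xt {W : Submodule K V} {F : PName Cd} (t : Jt W F) :
    Fmem (xt t) (F.chd t.1.2) t.1.1 := t.2.choose_spec.2.1

theorem good_xt {W : Submodule K V} {F : PName Cd} (t : Jt W F) :
    Good W t.1.1 (F.chd t.1.2) (xt t) := t.2.choose_spec.2.2

/-- Ordinals for the elements of a type. -/
noncomputable def oj (J : Type) (j : J) : Ordinal.{0} :=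
  Ordinal.typein (α := J) WellOrderingRel j

theorem oj_inj {J : Type} {j k : J} (h : oj J j = oj J k) : j = k :=
  Ordinal.typein_injective _ h

/-- The name for the ordinal of the base triple. -/
noncomputable def aN {W : Submodule K V} {F : PName Cd} (t : Jt W F) : PName Cd :=
  check (oj (Jt W F) t).toZFSet

/-- The name for the set of the triples. -/
noncomputable def RN (W : Submodule K V) (F : PName Cd) : PName Cd :=
  PName.mk ({g : G // g ∈ fx W} × Jt W F)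
    (fun t => opN (aN t.2) (opN (act (acH t.1.1) (F.chd t.2.1.2)) (act (acH t.1.1) (xt t.2))))
    (fun t => mv t.1.1 t.2.1.1)

theorem el_RN {W : Submodule K V} {F z : PName Cd} {c : Cd} : El (RN W F) z c ↔
    ∃ g ∈ fx W, ∃ t : Jt W F,
      z = opN (aN t) (opN (act (acH g) (F.chd t.1.2)) (act (acH g) (xt t))) ∧ c = mv g t.1.1 := by
  rw [RN, el_mk]
  constructor
  · rintro ⟨⟨⟨g, hg⟩, t⟩, rfl, rfl⟩
    exact ⟨g, hg, t, rfl, rfl⟩
  · rintro ⟨g, hg, t, rfl, rfl⟩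
    exact ⟨(⟨g, hg⟩, t), rfl, rfl⟩

theorem hs_RN {W : Submodule K V} [hW : Module.Finite K W] {F : PName Cd} (hF : sy.HS F) :
    sy.HS (RN W F) := by
  have key : ∀ g ∈ fx W, ∀ z c, El (RN W F) z c → El (RN W F) (act (acH g) z) (mv g c) := by
    intro g hg z c h
    obtain ⟨k, hk, t, rfl, rfl⟩ := el_RN.1 h
    refine el_RN.2 ⟨g * k, (fx W).mul_mem hg hk, t, ?_, rfl⟩
    rw [act_opN (acH_top g), act_opN (acH_top g), acH_mul, acH_mul]
    unfold aN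
    rw [act_check (acH_top g)]
  refine sy.hs_iff.2 ⟨⟨fx W, ⟨W, hW, rfl⟩, fun g hg p => feq_of_el fun z c => ?_⟩,
    fun z c hz => ?_⟩
  · rw [el_act]
    constructor
    · rintro ⟨z, c, h, rfl, rfl⟩
      exact key g hg z c h
    · intro h
      exact ⟨_, _, key g⁻¹ ((fx W).inv_mem hg) z c h, (acH_inv' g z).symm, (mv_inv' g c).symm⟩
  · obtain ⟨g, hg, t, rfl, -⟩ := el_RN.1 hz
    have h1 : sy.HS (F.chd t.1.2) := hF.el ⟨t.1.2, rfl, rfl⟩
    exact sy.hs_opN (sy.hs_check _) (sy.hs_opN (sy.hs_act h1 g) (sy.hs_act (hs_xt t) g))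

/-- The rule for the dense sets. -/
noncomputable def r1 (W : Submodule K V) : Rule Cd := fun q => match q with
  | ⟨_, .mem s _, v, p⟩ => (Sys.nm Cd {q | Ds W (tv v s) q}, p)
  | q => (emp, q.p)

/-- The rule for the set of the triples. -/
noncomputable def r2 (W : Submodule K V) : Rule Cd := fun q => match q with
  | ⟨_, .mem s _, v, p⟩ => (RN W (tv v s), p)
  | q => (emp, q.p)

open Classical in
/-- The rule for the base triples. -/
noncomputable def r3 (W : Submodule K V) : Rule Cd := fun q => match q with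
  | ⟨_, .mem s u, v, p⟩ =>
    (if h : ∃ t : Jt W (tv v s), t.1.1 = p ∧ (tv v s).chd t.1.2 = tv v u then
      opN (aN h.choose) (opN ((tv v s).chd h.choose.1.2) (xt h.choose)) else emp, p)
  | q => (emp, q.p)

/-- The package is closed under the rules. -/
structure Gl (π : Pkg Cd) : Prop where
  e : emp ∈ π.N
  a : ∀ W : Submodule K V, Module.Finite K W → ∀ q : Query Cd, q.In π.N π.C → (r1 W q).1 ∈ π.N
  b : ∀ W : Submodule K V, Module.Finite K W → ∀ q : Query Cd, q.In π.N π.C → (r2 W q).1 ∈ π.N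
  c : ∀ W : Submodule K V, Module.Finite K W → ∀ q : Query Cd, q.In π.N π.C → (r3 W q).1 ∈ π.N

section

variable {π : Pkg Cd} (g : Gl π)

include g

theorem nm_mem {W : Submodule K V} (hW : Module.Finite K W) {B : PName Cd} (hB : B ∈ π.N) :
    Sys.nm Cd {q | Ds W B q} ∈ π.N :=
  g.a W hW ⟨0, .mem (Sum.inr B) (Sum.inr B), Fin.elim0, π.g 0⟩ (query2 hB hB (π.gC 0))

theorem RN_mem {W : Submodule K V} (hW : Module.Finite K W) {F : PName Cd} (hF : F ∈ π.N) :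
    RN W F ∈ π.N :=
  g.b W hW ⟨0, .mem (Sum.inr F) (Sum.inr F), Fin.elim0, π.g 0⟩ (query2 hF hF (π.gC 0))

theorem base_mem {W : Submodule K V} (hW : Module.Finite K W) {F : PName Cd} (hF : F ∈ π.N)
    {i : F.idx} (hi : F.chd i ∈ π.N) {m : ℕ} (h : Ds W (F.chd i) (π.g m)) :
    ∃ t : Jt W F, t.1.1 = π.g m ∧ F.chd t.1.2 = F.chd i ∧
      opN (aN t) (opN (F.chd t.1.2) (xt t)) ∈ π.N := by
  have h1 := g.c W hW ⟨0, .mem (Sum.inr F) (Sum.inr (F.chd i)), Fin.elim0, π.g m⟩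
    (query2 hF hi (π.gC m))
  have h2 : ∃ t : Jt W (tv (Fin.elim0 : Fin 0 → PName Cd) (Sum.inr F)), t.1.1 = π.g m ∧
      (tv (Fin.elim0 : Fin 0 → PName Cd) (Sum.inr F)).chd t.1.2 =
        tv (Fin.elim0 : Fin 0 → PName Cd) (Sum.inr (F.chd i)) :=
    ⟨⟨(π.g m, i), h⟩, rfl, rfl⟩
  unfold r3 at h1
  simp only [dif_pos h2] at h1
  exact ⟨h2.choose, h2.choose_spec.1, h2.choose_spec.2, h1⟩

omit g in
theorem good_val {W : Submodule K V} {F : PName Cd} (t : Jt W F) {k k' : G} (hk : k ∈ fx W)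
    (hk' : k' ∈ fx W) (hm : ∃ m, π.g m ≤ mv k t.1.1) (hm' : ∃ m, π.g m ≤ mv k' t.1.1)
    (hB : act (acH k) (F.chd t.1.2) ∈ π.N) (hB' : act (acH k') (F.chd t.1.2) ∈ π.N)
    (hx : act (acH k) (xt t) ∈ π.N) (hx' : act (acH k') (xt t) ∈ π.N)
    (h : π.val (act (acH k) (F.chd t.1.2)) = π.val (act (acH k') (F.chd t.1.2))) :
    π.val (act (acH k) (xt t)) = π.val (act (acH k') (xt t)) := by
  obtain ⟨m, hm⟩ := hm
  obtain ⟨m', hm'⟩ := hm'
  obtain ⟨n, hn⟩ := (π.val_eq_iff hB hB').1 h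
  obtain ⟨N, hN⟩ : ∃ N, N = max n (max m m') := ⟨_, rfl⟩
  have h1 : π.g N ≤ mv k t.1.1 := (π.g_anti (by omega)).trans hm
  have h2 : π.g N ≤ mv k' t.1.1 := (π.g_anti (by omega)).trans hm'
  have h3 := hn.mono (π.g_anti (by omega : n ≤ N))
  have h4 : Feq (act (acH (k'⁻¹ * k)) (F.chd t.1.2)) (F.chd t.1.2) (mv k'⁻¹ (π.g N)) := by
    have h5 := feq_act' (e := acH k'⁻¹) h3
    rw [acH_inv, ← acH_mul] at h5
    exact h5
  have h5 := good_xt t (k'⁻¹ * k) ((fx W).mul_mem ((fx W).inv_mem hk') hk) (mv k'⁻¹ (π.g N))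
    (le_mv_iff.1 h2) (by rw [mv_mul]; exact mv_le h1) h4
  have h6 := feq_mv h5
  rw [← acH_mul, mul_inv_cancel_left] at h6
  exact (π.val_eq_iff hx hx').2 ⟨N, h6⟩

/-- The forced statements about the family. -/
theorem exists_two (hCld : sy.Cld π) {tF : PName Cd} (htF : tF ∈ π.N) (htF' : sy.HS tF)
    (h : ∀ b ∈ π.val tF, ∃ x y, x ≠ y ∧ b = ({x, y} : ZFSet.{0})) : ∃ k, Two tF (π.g k) ∧
      ∀ p ≤ π.g k, ∀ B, sy.HS B → Fmem B tF p → ∃ q ≤ p, ∃ x, sy.HS x ∧ Fmem x B q := by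
  have htr : ∀ b ∈ sy.Ms π, ∀ z ∈ b, z ∈ sy.Ms π := (SY.T_ZF.main SY.T_TRU.main SY.T_SEP.main _ sy
    π hCld).trans
  have hover : ∀ (n : ℕ), TOver (n := n) {x | x ∈ π.N ∧ sy.HS x} (Sum.inr tF) :=
    fun n => tOver_inr.2 ⟨htF, htF'⟩
  -- at most two elements
  let φ : Fml (PName Cd) 0 := .neg (.ex (.ex (.ex (.ex (.and (.mem (Sum.inl 3) (Sum.inr tF))
    (.and (.mem (Sum.inl 2) (Sum.inl 3)) (.and (.mem (Sum.inl 1) (Sum.inl 3))
    (.and (.mem (Sum.inl 0) (Sum.inl 3)) (.and (.neg (.eq (Sum.inl 2) (Sum.inl 1)))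
    (.and (.neg (.eq (Sum.inl 2) (Sum.inl 0))) (.neg (.eq (Sum.inl 1) (Sum.inl 0)))))))))))))
  have hφ : φ.Over {x | x ∈ π.N ∧ sy.HS x} :=
    ⟨⟨TOver.inl _, hover _⟩, ⟨TOver.inl _, TOver.inl _⟩, ⟨TOver.inl _, TOver.inl _⟩,
      ⟨TOver.inl _, TOver.inl _⟩, ⟨TOver.inl _, TOver.inl _⟩, ⟨TOver.inl _, TOver.inl _⟩,
      ⟨TOver.inl _, TOver.inl _⟩⟩
  -- at least one element
  let ψ : Fml (PName Cd) 0 := .neg (.ex (.and (.mem (Sum.inl 0) (Sum.inr tF))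
    (.neg (.ex (.mem (Sum.inl 0) (Sum.inl 1))))))
  have hψ : ψ.Over {x | x ∈ π.N ∧ sy.HS x} :=
    ⟨⟨TOver.inl _, hover _⟩, ⟨TOver.inl _, TOver.inl _⟩⟩
  have h1 : Sat (sy.Ms π) π.val φ (π.val ∘ Fin.elim0) := by
    rintro ⟨B, hB, x, hx, y, hy, z, hz, hBF, hxB, hyB, hzB, hxy, hxz, hyz⟩
    obtain ⟨a, b, hab, hBab⟩ := h B hBF
    have hx' : x ∈ B := hxB
    have hy' : y ∈ B := hyB
    have hz' : z ∈ B := hzB
    rw [hBab, ZFSet.mem_pair] at hx' hy' hz'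
    rcases hx' with rfl | rfl <;> rcases hy' with rfl | rfl <;> rcases hz' with rfl | rfl <;>
      first
        | exact hxy rfl
        | exact hxz rfl
        | exact hyz rfl
  have h2 : Sat (sy.Ms π) π.val ψ (π.val ∘ Fin.elim0) := by
    rintro ⟨B, hB, hBF, hne⟩
    obtain ⟨a, b, hab, hBab⟩ := h B hBF
    have ha : a ∈ B := by
      rw [hBab]
      exact ZFSet.mem_pair.2 (Or.inl rfl)
    exact hne ⟨a, htr B hB a ha, ha⟩
  obtain ⟨k, hk⟩ := (SY.T_TRU.main _ sy π hCld 0 φ hφ Fin.elim0 fun i => i.elim0).1 h1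
  obtain ⟨k', hk'⟩ := (SY.T_TRU.main _ sy π hCld 0 ψ hψ Fin.elim0 fun i => i.elim0).1 h2
  refine ⟨max k k', ?_, ?_⟩
  · intro t ht B x y z hB hx hy hz hBF hxB hyB hzB hxy hxz hyz
    refine hk t (ht.trans (π.g_le_left _ _)) ?_
    intro q hq
    refine ⟨q, le_rfl, B, hB, fun q1 hq1 => ⟨q1, le_rfl, x, hx, fun q2 hq2 => ⟨q2, le_rfl, y, hy,
      fun q3 hq3 => ⟨q3, le_rfl, z, hz, ?_⟩⟩⟩⟩
    have hle : q3 ≤ t := hq3.trans (hq2.trans (hq1.trans hq))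
    exact ⟨hBF.mono hle, hxB.mono hle, hyB.mono hle, hzB.mono hle, hxy.mono hle, hxz.mono hle,
      hyz.mono hle⟩
  · intro p hp B hB hBF
    by_contra hc
    refine hk' p (hp.trans (π.g_le_right _ _)) fun q hq => ⟨q, le_rfl, B, hB, hBF.mono hq, ?_⟩
    intro q' hq' h3
    obtain ⟨s, hs, x, hx, h4⟩ := h3 q' le_rfl
    exact hc ⟨s, hs.trans (hq'.trans hq), x, hx, h4⟩

/-- The choice of elements of two-element sets. -/
theorem ac2 (hCld : sy.Cld π) : AC2 (sy.Ms π) := by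
  have hM : IsZF (sy.Ms π) := SY.T_ZF.main SY.T_TRU.main SY.T_SEP.main _ _ π hCld
  intro F hFM htwo
  have hB := hM.base
  obtain ⟨tF, ⟨htF, htF'⟩, rfl⟩ := id hFM
  obtain ⟨W, hW, -⟩ := hs_supp htF'
  obtain ⟨k, hTwo, hne⟩ := exists_two g hCld htF htF' htwo
  have hRM : π.val (RN W tF) ∈ sy.Ms π := ⟨_, ⟨RN_mem g hW htF, hs_RN (hW := hW) htF'⟩, rfl⟩
  -- the elements of the set of triples
  have hel : ∀ α b y, pair α (pair b y) ∈ π.val (RN W tF) → ∃ (s : G) (t : Jt W tF), s ∈ fx W ∧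
      (∃ m, π.g m ≤ mv s t.1.1) ∧ aN t ∈ π.N ∧ act (acH s) (tF.chd t.1.2) ∈ π.N ∧
      act (acH s) (xt t) ∈ π.N ∧ α = π.val (aN t) ∧ b = π.val (act (acH s) (tF.chd t.1.2)) ∧
      y = π.val (act (acH s) (xt t)) := by
    intro α b y h
    obtain ⟨u, hu, c, hc, hm, h1⟩ := π.mem_val.1 h
    obtain ⟨s, hs, t, rfl, rfl⟩ := el_RN.1 hc
    have hu1 := π.fst_mem hu
    have hu2 := π.snd_mem hu
    have hu3 := π.fst_mem hu2
    have hu4 := π.snd_mem hu2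
    rw [π.val_opN hu1 hu2, π.val_opN hu3 hu4] at h1
    obtain ⟨h2, h3⟩ := ZFSet.pair_inj.1 h1
    obtain ⟨h4, h5⟩ := ZFSet.pair_inj.1 h3
    exact ⟨s, t, hs, hm, hu1, hu3, hu4, h2.symm, h4.symm, h5.symm⟩
  have hlt : ∀ t t' : Jt W tF, aN t ∈ π.N → aN t' ∈ π.N → π.val (aN t) ∉ π.val (aN t') →
      π.val (aN t') ∉ π.val (aN t) → t = t' := by
    intro t t' ht ht' h1 h2
    have h3 : π.val (aN t) ∈ π.val (aN t') ↔ _ := π.hat_mem_hat ht ht'
    have h4 : π.val (aN t') ∈ π.val (aN t) ↔ _ := π.hat_mem_hat ht' ht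
    rw [h3, Ordinal.toZFSet_mem_toZFSet_iff] at h1
    rw [h4, Ordinal.toZFSet_mem_toZFSet_iff] at h2
    exact oj_inj (le_antisymm (not_lt.1 h2) (not_lt.1 h1))
  have hRmem : ∀ b y α, pair α (pair b y) ∈ π.val (RN W tF) → y ∈ b := by
    intro b y α h
    obtain ⟨s, t, hs, ⟨m, hm⟩, h1, h2, h3, -, rfl, rfl⟩ := hel α b y h
    refine (π.val_mem_iff h3 h2).2 ⟨m, ?_⟩
    exact (fmem_act' (e := acH s) (mem_xt t)).mono hm
  have hRex : ∀ b ∈ π.val tF, ∃ α y, pair α (pair b y) ∈ π.val (RN W tF) := by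
    intro b hb
    obtain ⟨B, hBN, c, ⟨i, rfl, rfl⟩, ⟨m, hm⟩, rfl⟩ := π.mem_val.1 hb
    have hBHS : sy.HS (tF.chd i) := htF'.el ⟨i, rfl, rfl⟩
    obtain ⟨m', hm'⟩ := (π.val_mem_iff hBN htF).1 hb
    obtain ⟨N, hN⟩ : ∃ N, N = max k m' := ⟨_, rfl⟩
    have hNk : π.g N ≤ π.g k := π.g_anti (by omega)
    have hNm : Fmem (tF.chd i) tF (π.g N) := hm'.mono (π.g_anti (by omega))
    have hdense : Fmem emp (Sys.nm Cd {q | Ds W (tF.chd i) q}) (π.g N) := by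
      refine fmem_iff.2 fun q hq => ?_
      obtain ⟨q1, hq1, x, hx, hxB⟩ := hne q (hq.trans hNk) (tF.chd i) hBHS (hNm.mono hq)
      obtain ⟨q', hq', x', hx', hxB', hgood⟩ := key (W := W) hTwo hBHS (hq.trans hNk)
        (hNm.mono hq) hq1 hx hxB
      exact ⟨q', hq'.trans hq1, emp, q', ⟨⟨q', x', hx', hxB', hgood⟩, rfl, rfl⟩, le_rfl,
        Feq.refl _ _⟩
    have h1 := (π.val_mem_iff g.e (nm_mem g hW hBN)).2 ⟨N, hdense⟩
    obtain ⟨y, hy, c, hc, ⟨n, hn⟩, -⟩ := π.mem_val.1 h1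
    obtain ⟨⟨c', hc'⟩, -, h2⟩ := hc
    have h3 : c' = c := h2
    subst h3
    have h4 : Ds W (tF.chd i) (π.g n) := Ds.mono hc' hn
    obtain ⟨t, ht1, ht2, ht3⟩ := base_mem g hW htF hBN h4
    have hu1 := π.fst_mem ht3
    have hu2 := π.snd_mem ht3
    have hu3 := π.fst_mem hu2
    have hu4 := π.snd_mem hu2
    refine ⟨π.val (aN t), π.val (xt t), ?_⟩
    rw [← ht2, ← π.val_opN hu3 hu4, ← π.val_opN hu1 hu2]
    refine π.val_mem_val (n := n) ht3 (el_RN.2 ⟨1, (fx W).one_mem, t, ?_, rfl⟩) ?_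
    · rw [acH_one, acH_one]
    · rw [mv_one, ht1]
  -- the choice function
  have hUM : ZFSet.sUnion (π.val tF) ∈ sy.Ms π := hM.union _ hFM
  have hf := hM.sep_mem (Q := fun w => ∃ b ∈ π.val tF, ∃ y ∈ ZFSet.sUnion (π.val tF),
    w = pair b y ∧ ∃ α ∈ sy.Ms π, pair α (pair b y) ∈ π.val (RN W tF) ∧
      ∀ β ∈ α, ∀ z ∈ ZFSet.sUnion (π.val tF), ¬ pair β (pair b z) ∈ π.val (RN W tF)) (by
    (repeat' first
      | assumption
      | exact DfnF.proj _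
      | exact DfnF.const (by assumption)
      | apply Dfn.not | apply Dfn.and | apply Dfn.or | apply Dfn.imp | apply Dfn.iff
      | apply Dfn.ex | apply hB.bex | apply hB.ball
      | apply Dfn.eq | apply Dfn.mem | apply hB.pair')) (hM.prod_mem hFM hUM)
  have hmf : ∀ b ∈ π.val tF, ∀ y, pair b y ∈ ZFSet.sep (fun w => ∃ b ∈ π.val tF,
      ∃ y ∈ ZFSet.sUnion (π.val tF),
      w = pair b y ∧ ∃ α ∈ sy.Ms π, pair α (pair b y) ∈ π.val (RN W tF) ∧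
      ∀ β ∈ α, ∀ z ∈ ZFSet.sUnion (π.val tF), ¬ pair β (pair b z) ∈ π.val (RN W tF))
      (ZFSet.prod (π.val tF) (ZFSet.sUnion (π.val tF))) ↔
      ∃ α, pair α (pair b y) ∈ π.val (RN W tF) ∧ ∀ β ∈ α, ∀ z,
        ¬ pair β (pair b z) ∈ π.val (RN W tF) := by
    intro b hb y
    rw [ZFSet.mem_sep]
    constructor
    · rintro ⟨-, b', -, y', -, h1, α, -, h2, h3⟩
      obtain ⟨rfl, rfl⟩ := ZFSet.pair_inj.1 h1
      exact ⟨α, h2, fun β hβ z h4 => h3 β hβ z (ZFSet.mem_sUnion.2 ⟨b, hb, hRmem b z β h4⟩) h4⟩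
    · rintro ⟨α, h2, h3⟩
      have hy : y ∈ ZFSet.sUnion (π.val tF) := ZFSet.mem_sUnion.2 ⟨b, hb, hRmem b y α h2⟩
      exact ⟨ZFSet.pair_mem_prod.2 ⟨hb, hy⟩, b, hb, y, hy, rfl, α,
        (hM.of_pair_mem (hM.trans _ hRM _ h2)).1, h2, fun β hβ z _ => h3 β hβ z⟩
  refine ⟨_, hf, fun b hb => ?_⟩
  obtain ⟨α₀, y₀, h0⟩ := hRex b hb
  obtain ⟨α, ⟨y, hy⟩, hmin⟩ := ZFSet.mem_wf.has_min
    {α | ∃ y, pair α (pair b y) ∈ π.val (RN W tF)} ⟨α₀, y₀, h0⟩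
  refine ⟨y, hRmem b y α hy, fun z => ?_⟩
  rw [hmf b hb z]
  constructor
  · rintro ⟨α', hz, hmin'⟩
    obtain ⟨s, t, hs, hm, h1, h2, h3, rfl, h4, rfl⟩ := hel α b y hy
    obtain ⟨s', t', hs', hm', h1', h2', h3', rfl, h4', rfl⟩ := hel α' b z hz
    have h5 : t = t' := hlt t t' h1 h1' (fun h => hmin' _ h _ hy) fun h => hmin _ ⟨_, hz⟩ h
    subst h5
    exact (good_val t hs hs' hm hm' h2 h2' h3 h3' (h4.symm.trans h4')).symm
  · rintro rfl
    exact ⟨α, hy, fun β hβ w hw => hmin β ⟨w, hw⟩ hβ⟩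

end

end Pool.Agent.R598.LX
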