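import Pool.Agent.R598.LX.LA
import Pool.Agent.R598.SY.T_ZF
import Pool.Agent.R598.SY.T_TRU
import Pool.Agent.R598.SY.T_SEP

/-!
# Cohen reals indexed by a vector space, and finite-dimensional supports
-/

set_option autoImplicit false

namespace Pool.Agent.R598.LX

open Pool.Agent.W868 Pool.Agent.W868.PName Pool.Agent.R598.SY
open ZFSet (pair)

/-- Conditions: finite partial functions from `V × ℕ` to `{true, false}`. -/
structure Cd : Type where
  /-- the graph -/
  s : Set (V × ℕ × Bool)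
  fin : s.Finite
  fn : ∀ a n, (a, n, true) ∈ s → (a, n, false) ∉ s

theorem Cd.ext' {p q : Cd} (h : p.s = q.s) : p = q := by
  cases p
  cases q
  congr

instance : Preorder Cd where
  le p q := q.s ⊆ p.s
  le_refl _ := subset_rfl
  le_trans _ _ _ h h' := h'.trans h

instance : OrderTop Cd where
  top := ⟨∅, Set.finite_empty, fun _ _ h => h.elim⟩
  le_top _ := Set.empty_subset _

theorem le_def {p q : Cd} : p ≤ q ↔ q.s ⊆ p.s := Iff.rfl

theorem Cd.fn' (p : Cd) {a : V} {n : ℕ} {b b' : Bool} (h : (a, n, b) ∈ p.s)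
    (h' : (a, n, b') ∈ p.s) : b = b' := by
  have h1 := p.fn a n
  cases b <;> cases b' <;> simp_all

/-- The union of two conditions. -/
theorem exists_un {p q : Cd} (h : ∀ a n b b', (a, n, b) ∈ p.s → (a, n, b') ∈ q.s → b = b') :
    ∃ r : Cd, r.s = p.s ∪ q.s := by
  refine ⟨⟨p.s ∪ q.s, p.fin.union q.fin, fun a n h1 h2 => ?_⟩, rfl⟩
  rcases h1 with h1 | h1 <;> rcases h2 with h2 | h2
  · exact p.fn a n h1 h2
  · have := h a n _ _ h1 h2
    simp at this
  · have := h a n _ _ h2 h1
    simp at this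
  · exact q.fn a n h1 h2

instance : Countable V := inferInstance

instance : Countable Cd := by
  have h1 : {s : Set (V × ℕ × Bool) | s.Finite}.Countable := Set.Countable.ofPred_finite
  have h2 : Countable {s : Set (V × ℕ × Bool) | s.Finite} := h1.to_subtype
  exact Function.Injective.countable (f := fun p : Cd =>
    (⟨p.s, p.fin⟩ : {s : Set (V × ℕ × Bool) | s.Finite}))
    fun p q h => Cd.ext' (congrArg Subtype.val h)

/-- The group. -/
abbrev G : Type := V ≃ₗ[K] V

/-- The action on the conditions. -/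
noncomputable def mv (g : G) (p : Cd) : Cd where
  s := {x | (g.symm x.1, x.2) ∈ p.s}
  fin := by
    refine p.fin.preimage (f := fun x : V × ℕ × Bool => (g.symm x.1, x.2)) ?_
    rintro ⟨a, x⟩ - ⟨b, y⟩ - h
    obtain ⟨h1, h2⟩ := Prod.mk.inj h
    exact Prod.ext (g.symm.injective h1) h2
  fn a n := p.fn (g.symm a) n

theorem mem_mv {g : G} {p : Cd} {x : V × ℕ × Bool} :
    x ∈ (mv g p).s ↔ (g.symm x.1, x.2) ∈ p.s := Iff.rfl

theorem mem_mv' {g : G} {p : Cd} {a : V} {y : ℕ × Bool} :
    (g a, y) ∈ (mv g p).s ↔ (a, y) ∈ p.s := by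
  rw [mem_mv]
  simp

theorem mv_le {g : G} {p q : Cd} (h : p ≤ q) : mv g p ≤ mv g q := fun _ hx => h hx

theorem mv_symm_mv (g : G) (p : Cd) : mv g.symm (mv g p) = p := by
  refine Cd.ext' (Set.ext fun x => ?_)
  rw [mem_mv, mem_mv]
  simp

theorem mv_mv_symm (g : G) (p : Cd) : mv g (mv g.symm p) = p := by
  refine Cd.ext' (Set.ext fun x => ?_)
  rw [mem_mv, mem_mv]
  simp

/-- The action. -/
noncomputable def acH : G →* (Cd ≃o Cd) where
  toFun g :=
    { toFun := mv g
      invFun := mv g.symm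
      left_inv := mv_symm_mv g
      right_inv := mv_mv_symm g
      map_rel_iff' := by
        intro p q
        constructor
        · intro h
          have h1 := mv_le (g := g.symm) h
          simp only [Equiv.coe_fn_mk] at h1
          rwa [mv_symm_mv, mv_symm_mv] at h1
        · exact mv_le }
  map_one' := by
    ext p
    rfl
  map_mul' := by
    intro g h
    ext p
    rfl

/-- The elements of the group that fix all elements of the subspace. -/
def fx (W : Submodule K V) : Subgroup G where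
  carrier := {g | ∀ w ∈ W, g w = w}
  mul_mem' := by
    intro g h hg hh w hw
    change g (h w) = w
    rw [hh w hw, hg w hw]
  one_mem' := fun _ _ => rfl
  inv_mem' := by
    intro g hg w hw
    change g.symm w = w
    rw [LinearEquiv.symm_apply_eq, hg w hw]

theorem mem_fx {W : Submodule K V} {g : G} : g ∈ fx W ↔ ∀ w ∈ W, g w = w := Iff.rfl

theorem fx_mono {W W' : Submodule K V} (h : W ≤ W') : fx W' ≤ fx W := fun _ hg w hw => hg w (h hw)

/-- The symmetric system. -/
noncomputable def sy : Sys Cd where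
  G := G
  grp := inferInstance
  ac := acH
  top := by
    intro g
    exact Cd.ext' rfl
  F := {H | ∃ W : Submodule K V, Module.Finite K W ∧ H = fx W}
  ne := ⟨_, ⊥, inferInstance, rfl⟩
  conj := by
    rintro _ ⟨W, hW, rfl⟩ g
    refine ⟨_, ⟨W.map (g : V ≃ₗ[K] V).toLinearMap, inferInstance, rfl⟩, fun k hk w hw => ?_⟩
    have h1 : k (g w) = g w := hk (g w) ⟨w, hw, rfl⟩
    change g.symm (k (g w)) = w
    rw [h1, LinearEquiv.symm_apply_apply]
  dir := by
    rintro _ ⟨W, hW, rfl⟩ _ ⟨W', hW', rfl⟩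
    exact ⟨_, ⟨W ⊔ W', inferInstance, rfl⟩, fx_mono le_sup_left, fx_mono le_sup_right⟩

theorem ac_apply (g : G) (p : Cd) : acH g p = mv g p := rfl

theorem acH_top (g : G) : acH g ⊤ = ⊤ := Cd.ext' rfl

/-! ### The restriction lemma -/

/-- The restriction of a condition to a subspace. -/
noncomputable def rs (W : Submodule K V) (p : Cd) : Cd where
  s := {x ∈ p.s | x.1 ∈ W}
  fin := p.fin.subset fun _ hx => hx.1
  fn a n h h' := p.fn a n h.1 h'.1

theorem mem_rs {W : Submodule K V} {p : Cd} {x : V × ℕ × Bool} :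
    x ∈ (rs W p).s ↔ x ∈ p.s ∧ x.1 ∈ W := Iff.rfl

theorem le_rs (W : Submodule K V) (p : Cd) : p ≤ rs W p := fun _ hx => hx.1

/-- The subspace generated by the domain. -/
noncomputable def dm (p : Cd) : Submodule K V := Submodule.span K (Prod.fst '' p.s)

instance (p : Cd) : Module.Finite K (dm p) := Module.Finite.span_of_finite K (p.fin.image _)

theorem mem_dm {p : Cd} {a : V} {y : ℕ × Bool} (h : (a, y) ∈ p.s) : a ∈ dm p :=
  Submodule.subset_span ⟨_, h, rfl⟩

/-- The restriction lemma. -/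
theorem restr {Φ : Cd → Prop} (mono : ∀ p q, q ≤ p → Φ p → Φ q)
    (dn : ∀ p, (∀ q ≤ p, ∃ s ≤ q, Φ s) → Φ p) {W : Submodule K V} [Module.Finite K W]
    (inv : ∀ g ∈ fx W, ∀ p, Φ p → Φ (mv g p)) {p : Cd} (h : Φ p) : Φ (rs W p) := by
  refine dn _ fun q hq => ?_
  obtain ⟨g, hg, hgE⟩ := exists_fresh (W := W) (E := W ⊔ (dm p ⊔ dm q)) le_sup_left
  have hpE : dm p ≤ W ⊔ (dm p ⊔ dm q) := le_sup_left.trans le_sup_right
  have hqE : dm q ≤ W ⊔ (dm p ⊔ dm q) := le_sup_right.trans le_sup_right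
  obtain ⟨r, hr⟩ := exists_un (p := q) (q := mv g p) (by
    intro a n b b' h1 h2
    have h3 : (g.symm a, n, b') ∈ p.s := h2
    have h4 : g.symm a ∈ W := by
      refine hgE _ (hpE (mem_dm h3)) ?_
      rw [LinearEquiv.apply_symm_apply]
      exact hqE (mem_dm h1)
    have h5 : g.symm a = a := by
      have h6 := hg _ h4
      rw [LinearEquiv.apply_symm_apply] at h6
      exact h6.symm
    rw [h5] at h3 h4
    exact q.fn' h1 (hq (mem_rs.2 ⟨h3, h4⟩)))
  refine ⟨r, ?_, mono _ _ ?_ (inv g hg p h)⟩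
  · rw [le_def, hr]
    exact Set.subset_union_left
  · rw [le_def, hr]
    exact Set.subset_union_right

/-- The name has the support `W`. -/
def Sp (W : Submodule K V) (x : PName Cd) : Prop := ∀ g ∈ fx W, ∀ p, Feq (act (acH g) x) x p

/-- The condition forces that the names are different. -/
def NF (x y : PName Cd) (p : Cd) : Prop := ∀ q ≤ p, ¬ Feq x y q

theorem Sp.mono {W W' : Submodule K V} {x : PName Cd} (h : Sp W x) (hW : W ≤ W') : Sp W' x :=
  fun g hg p => h g (fx_mono hW hg) p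

theorem Sp.act {W : Submodule K V} {x : PName Cd} (h : Sp W x) (g : G) :
    Sp (W.map g.toLinearMap) (act (acH g) x) := by
  intro (k : G) hk p
  have h1 : (g⁻¹ * k * g : G) ∈ fx W := by
    intro w hw
    have h2 : k (g w) = g w := hk (g w) ⟨w, hw, rfl⟩
    change g.symm (k (g w)) = w
    rw [h2, LinearEquiv.symm_apply_apply]
  have h2 := feq_act' (e := acH g) (h _ h1 ((acH g)⁻¹ p))
  rw [← act_mul, ← acH.map_mul, app_inv] at h2
  have h3 : (g * (g⁻¹ * k * g) : G) = k * g := by group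
  rwa [h3, acH.map_mul, act_mul] at h2

theorem feq_fix {W : Submodule K V} {x y : PName Cd} (hx : Sp W x) (hy : Sp W y) {g : G}
    (hg : g ∈ fx W) {p : Cd} (h : Feq x y p) : Feq x y (mv g p) := by
  have h1 := feq_act' (e := acH g) h
  exact feq_trans ((hx g hg _).symm) (feq_trans h1 (hy g hg _))

theorem fmem_fix {W : Submodule K V} {x y : PName Cd} (hx : Sp W x) (hy : Sp W y) {g : G}
    (hg : g ∈ fx W) {p : Cd} (h : Fmem x y p) : Fmem x y (mv g p) :=
  fmem_congr (hx g hg _) (hy g hg _) (fmem_act' (e := acH g) h)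

theorem restr_feq {W : Submodule K V} [Module.Finite K W] {x y : PName Cd} (hx : Sp W x)
    (hy : Sp W y) {p : Cd} (h : Feq x y p) : Feq x y (rs W p) :=
  restr (Φ := fun p => Feq x y p) (fun _ _ hq h => h.mono hq) (fun _ h => feq_dense h)
    (fun _ hg _ h => feq_fix hx hy hg h) h

theorem restr_fmem {W : Submodule K V} [Module.Finite K W] {x y : PName Cd} (hx : Sp W x)
    (hy : Sp W y) {p : Cd} (h : Fmem x y p) : Fmem x y (rs W p) :=
  restr (Φ := fun p => Fmem x y p) (fun _ _ hq h => h.mono hq) (fun _ h => fmem_dense h)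
    (fun _ hg _ h => fmem_fix hx hy hg h) h

theorem NF.mono {x y : PName Cd} {p q : Cd} (h : NF x y p) (hq : q ≤ p) : NF x y q :=
  fun r hr => h r (hr.trans hq)

theorem NF.dense {x y : PName Cd} {p : Cd} (h : ∀ q ≤ p, ∃ s ≤ q, NF x y s) : NF x y p := by
  intro q hq hf
  obtain ⟨s, hs, h1⟩ := h q hq
  exact h1 s le_rfl (hf.mono hs)

theorem NF.fix {W : Submodule K V} {x y : PName Cd} (hx : Sp W x) (hy : Sp W y) {g : G}
    (hg : g ∈ fx W) {p : Cd} (h : NF x y p) : NF x y (mv g p) := by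
  intro q hq hf
  have h1 : mv g.symm q ≤ p := by
    have h2 := mv_le (g := g.symm) hq
    rwa [mv_symm_mv] at h2
  exact h _ h1 (feq_fix hx hy ((fx W).inv_mem hg) hf)

theorem restr_nf {W : Submodule K V} [Module.Finite K W] {x y : PName Cd} (hx : Sp W x)
    (hy : Sp W y) {p : Cd} (h : NF x y p) : NF x y (rs W p) :=
  restr (Φ := fun p => NF x y p) (fun _ _ hq h => h.mono hq) (fun _ h => NF.dense h)
    (fun _ hg _ h => NF.fix hx hy hg h) h

theorem exists_nf {x y : PName Cd} {p : Cd} (h : ¬ Feq x y p) : ∃ q ≤ p, NF x y q := by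
  by_contra hc
  refine h (feq_dense fun q hq => ?_)
  by_contra h1
  exact hc ⟨q, hq, fun s hs hf => h1 ⟨s, hs, hf⟩⟩

theorem NF.act {x y : PName Cd} {p : Cd} (h : NF x y p) (g : G) :
    NF (act (acH g) x) (act (acH g) y) (mv g p) := by
  intro q hq hf
  have h1 : mv g.symm q ≤ p := by
    have h2 := mv_le (g := g.symm) hq
    rwa [mv_symm_mv] at h2
  refine h _ h1 ?_
  have h3 := feq_act' (e := (acH g)⁻¹) hf
  rwa [act_inv_act, act_inv_act] at h3

theorem hs_supp {x : PName Cd} (h : sy.HS x) : ∃ W : Submodule K V, Module.Finite K W ∧ Sp W x := by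
  obtain ⟨_, ⟨W, hW, rfl⟩, hE⟩ := h.sym
  exact ⟨W, hW, hE⟩

end Pool.Agent.R598.LX
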