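import Pool.Agent.R598.LX.Defs
import Pool.Agent.R598.PM.Mod2

/-!
# The compactness principle for `K_2` from the choice of elements of two-element sets
-/

set_option autoImplicit false

namespace Pool.Agent.R598.LX

open Pool.Agent.W868 Pool.Agent.R598.PM
open ZFSet (pair)

theorem nat_two (z : ZFSet.{0}) : z ∈ nat 2 ↔ z = nat 0 ∨ z = nat 1 := by
  change z ∈ insert (nat 1) (nat 1) ↔ _
  rw [ZFSet.mem_insert_iff]
  have h : z ∈ nat 1 ↔ z = nat 0 := by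
    change z ∈ insert (nat 0) (nat 0) ↔ _
    rw [ZFSet.mem_insert_iff]
    constructor
    · rintro (h | h)
      · exact h
      · exact absurd h (ZFSet.notMem_empty z)
    · exact Or.inl
  rw [h]
  tauto

section

variable {M : Set ZFSet.{0}} {X E Pw : ZFSet.{0}}

/-- The set `D` is a colour class of a proper colouring of `Z`. -/
def Pr (E Z D : ZFSet.{0}) : Prop := ∀ u ∈ Z, ∀ w ∈ Z, pair u w ∈ E → (u ∈ D ↔ w ∉ D)

theorem Pr.mono {Z Z' D : ZFSet.{0}} (h : Pr E Z' D) (hZ : Z ⊆ Z') : Pr E Z D :=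
  fun u hu w hw => h u (hZ hu) w (hZ hw)

/-- The elements have the same colour. -/
def Q0 (M : Set ZFSet.{0}) (E Pw x y : ZFSet.{0}) : Prop :=
  ∃ Z ∈ Pw, FinIn M Z ∧ x ∈ Z ∧ y ∈ Z ∧ ∀ D ∈ Pw, Pr E Z D → (x ∈ D ↔ y ∈ D)

/-- The elements have different colours. -/
def Q1 (M : Set ZFSet.{0}) (E Pw x y : ZFSet.{0}) : Prop :=
  ∃ Z ∈ Pw, FinIn M Z ∧ x ∈ Z ∧ y ∈ Z ∧ ∀ D ∈ Pw, Pr E Z D → (x ∈ D ↔ y ∉ D)

/-- The sets definable from these relations are in the model. -/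
theorem exists_FS (hM : IsZF M) (hPw : Pw ∈ M) : ∃ FS ∈ M, ∀ Z, Z ∈ FS ↔ Z ∈ Pw ∧ FinIn M Z := by
  have hB := hM.base
  have hom := hM.infinity
  have h1 := hM.sep_mem (Q := fun Z => ∃ n ∈ ZFSet.omega, ∃ f ∈ M, IsBij Z n f) (by
    (repeat' first
      | assumption
      | exact DfnF.proj _
      | exact DfnF.const (by assumption)
      | apply Dfn.ex | apply hB.bex | apply hB.isBij')) hPw
  refine ⟨_, h1, fun Z => ?_⟩
  rw [ZFSet.mem_sep]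
  refine and_congr_right fun _ => ?_
  constructor
  · rintro ⟨n, hn, h⟩
    obtain ⟨n, rfl⟩ := mem_omega_iff.1 hn
    exact ⟨n, h⟩
  · rintro ⟨n, h⟩
    exact ⟨nat n, mem_omega_iff.2 ⟨n, rfl⟩, h⟩

variable (hM : IsZF M) (hX : X ∈ M) (hE : E ∈ M) (hPw : Pw ∈ M)
  (hPw' : ∀ z, z ∈ Pw ↔ z ∈ M ∧ z ⊆ X)
  (hcol : ∀ Z ∈ Pw, FinIn M Z → ∃ D ∈ Pw, Pr E Z D)

include hM hPw' in
theorem fin_union {Z Z' : ZFSet.{0}} (hZ : Z ∈ Pw) (hZf : FinIn M Z) (hZ' : Z' ∈ Pw)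
    (hZf' : FinIn M Z') : Z ∪ Z' ∈ Pw ∧ FinIn M (Z ∪ Z') := by
  obtain ⟨h1, h2⟩ := (hPw' Z).1 hZ
  obtain ⟨h1', h2'⟩ := (hPw' Z').1 hZ'
  have h3 : Z ∪ Z' ∈ M := hM.union_mem h1 h1'
  refine ⟨(hPw' _).2 ⟨h3, fun z hz => ?_⟩, ?_⟩
  · rcases ZFSet.mem_union.1 hz with h | h
    · exact h2 h
    · exact h2' h
  · rw [finIn_iff hM fun z hz => hM.trans _ h3 z hz]
    have h4 : {z | z ∈ Z ∪ Z'} = {z | z ∈ Z} ∪ {z | z ∈ Z'} := by
      ext z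
      exact ZFSet.mem_union
    rw [h4]
    exact ((finIn_iff hM fun z hz => hM.trans _ h1 z hz).1 hZf).union
      ((finIn_iff hM fun z hz => hM.trans _ h1' z hz).1 hZf')

include hM hX hPw' in
theorem fin_pair {x y : ZFSet.{0}} (hx : x ∈ X) (hy : y ∈ X) :
    ({x, y} : ZFSet.{0}) ∈ Pw ∧ FinIn M ({x, y} : ZFSet.{0}) := by
  have h1 : ({x, y} : ZFSet.{0}) ∈ M := hM.pairing _ (hM.trans _ hX _ hx) _ (hM.trans _ hX _ hy)
  refine ⟨(hPw' _).2 ⟨h1, fun z hz => ?_⟩, ?_⟩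
  · rcases ZFSet.mem_pair.1 hz with rfl | rfl
    · exact hx
    · exact hy
  · rw [finIn_iff hM fun z hz => hM.trans _ h1 z hz]
    refine Set.Finite.subset (Set.toFinite {x, y}) fun z hz => ?_
    exact ZFSet.mem_pair.1 hz

include hM hX hPw' in
theorem q0_refl {x : ZFSet.{0}} (hx : x ∈ X) : Q0 M E Pw x x := by
  obtain ⟨h1, h2⟩ := fin_pair hM hX hPw' hx hx
  exact ⟨_, h1, h2, ZFSet.mem_pair.2 (Or.inl rfl), ZFSet.mem_pair.2 (Or.inl rfl),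
    fun _ _ _ => Iff.rfl⟩

omit hM hX hE hPw hPw' hcol in
theorem q0_symm {x y : ZFSet.{0}} (h : Q0 M E Pw x y) : Q0 M E Pw y x := by
  obtain ⟨Z, h1, h2, h3, h4, h5⟩ := h
  exact ⟨Z, h1, h2, h4, h3, fun D hD h => (h5 D hD h).symm⟩

omit hM hX hE hPw hPw' hcol in
theorem q1_symm {x y : ZFSet.{0}} (h : Q1 M E Pw x y) : Q1 M E Pw y x := by
  obtain ⟨Z, h1, h2, h3, h4, h5⟩ := h
  refine ⟨Z, h1, h2, h4, h3, fun D hD h => ?_⟩
  have := h5 D hD h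
  tauto

include hM hPw'

theorem q_trans {x y z : ZFSet.{0}} :
    (Q0 M E Pw x y → Q0 M E Pw y z → Q0 M E Pw x z) ∧
    (Q0 M E Pw x y → Q1 M E Pw y z → Q1 M E Pw x z) ∧
    (Q1 M E Pw x y → Q0 M E Pw y z → Q1 M E Pw x z) ∧
    (Q1 M E Pw x y → Q1 M E Pw y z → Q0 M E Pw x z) := by
  refine ⟨?_, ?_, ?_, ?_⟩ <;>
  · rintro ⟨Z, h1, h2, h3, h4, h5⟩ ⟨Z', h1', h2', h3', h4', h5'⟩
    obtain ⟨h6, h7⟩ := fin_union hM hPw' h1 h2 h1' h2'
    refine ⟨_, h6, h7, ZFSet.mem_union.2 (Or.inl h3), ZFSet.mem_union.2 (Or.inr h4'),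
      fun D hD h => ?_⟩
    have h8 := h5 D hD (h.mono fun w hw => ZFSet.mem_union.2 (Or.inl hw))
    have h9 := h5' D hD (h.mono fun w hw => ZFSet.mem_union.2 (Or.inr hw))
    tauto

include hcol

theorem not_q0_q1 {x y : ZFSet.{0}} (h : Q0 M E Pw x y) (h' : Q1 M E Pw x y) : False := by
  obtain ⟨Z, h1, h2, h3, h4, h5⟩ := h
  obtain ⟨Z', h1', h2', h3', h4', h5'⟩ := h'
  obtain ⟨h6, h7⟩ := fin_union hM hPw' h1 h2 h1' h2'
  obtain ⟨D, hD, h⟩ := hcol _ h6 h7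
  have h8 := h5 D hD (h.mono fun w hw => ZFSet.mem_union.2 (Or.inl hw))
  have h9 := h5' D hD (h.mono fun w hw => ZFSet.mem_union.2 (Or.inr hw))
  tauto

omit hcol in
include hX in
theorem q1_edge {x y : ZFSet.{0}} (hx : x ∈ X) (hy : y ∈ X) (h : pair x y ∈ E) :
    Q1 M E Pw x y := by
  obtain ⟨h1, h2⟩ := fin_pair hM hX hPw' hx hy
  exact ⟨_, h1, h2, ZFSet.mem_pair.2 (Or.inl rfl), ZFSet.mem_pair.2 (Or.inr rfl),
    fun D _ h' => h' x (ZFSet.mem_pair.2 (Or.inl rfl)) y (ZFSet.mem_pair.2 (Or.inr rfl)) h⟩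

end

/-- The compactness principle for `K_2`. -/
theorem kk2_of_ac2 {M : Set ZFSet.{0}} (hM : IsZF M) (hA : AC2 M) : KK2 M := by
  intro X hX E hE hfin
  have hB := hM.base
  obtain ⟨Pw, hPw, hPw'⟩ := hM.power _ hX
  obtain ⟨PP, hPP, hPP'⟩ := hM.power _ hPw
  obtain ⟨FS, hFS, hFS'⟩ := exists_FS hM hPw
  have h2M : nat 2 ∈ M := hM.nat_mem 2
  have h1M : nat 1 ∈ M := hM.nat_mem 1
  have h0M : nat 0 ∈ M := hM.nat_mem 0
  have h10 : nat 1 ≠ nat 0 := fun h => by simpa using nat_injective h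
  -- proper colourings of the finite sets
  have hcol : ∀ Z ∈ Pw, FinIn M Z → ∃ D ∈ Pw, Pr E Z D := by
    intro Z hZ hZf
    obtain ⟨hZM, hZX⟩ := (hPw' Z).1 hZ
    obtain ⟨h, hh, hh1, hh2⟩ := hfin Z hZM hZX hZf
    have h3 := hM.sep_mem (Q := fun u => pair u (nat 1) ∈ h) (by
      (repeat' first
        | assumption
        | exact DfnF.proj _
        | exact DfnF.const (by assumption)
        | apply Dfn.mem | apply hB.pair')) hZM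
    refine ⟨_, (hPw' _).2 ⟨h3, fun u hu => hZX (ZFSet.mem_sep.1 hu).1⟩, fun u hu w hw huw => ?_⟩
    have hval : ∀ a ∈ Z, pair a (nat 0) ∈ h ∨ pair a (nat 1) ∈ h := by
      intro a ha
      obtain ⟨i, hi, -⟩ := hh1.2 a ha
      rcases (nat_two i).1 (ZFSet.pair_mem_prod.1 (hh1.1 hi)).2 with rfl | rfl
      · exact Or.inl hi
      · exact Or.inr hi
    rw [ZFSet.mem_sep, ZFSet.mem_sep]
    constructor
    · rintro ⟨-, h4⟩ ⟨-, h5⟩
      exact hh2 u hu w hw huw _ h4 h5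
    · intro h4
      refine ⟨hu, ?_⟩
      rcases hval u hu with h5 | h5
      · have h6 := hh2 u hu w hw huw _ h5
        rcases hval w hw with h7 | h7
        · exact absurd h7 h6
        · exact absurd ⟨hw, h7⟩ h4
      · exact h5
  have htr := fun x y z => q_trans (E := E) hM hPw' (x := x) (y := y) (z := z)
  -- the classes
  have hA0 : ∀ x ∈ X, ∃ A ∈ Pw, ∀ y, y ∈ A ↔ y ∈ X ∧ Q0 M E Pw x y := by
    intro x hx
    have hxM := hM.trans _ hX _ hx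
    have h3 := hM.sep_mem (Q := fun y => ∃ Z ∈ FS, x ∈ Z ∧ y ∈ Z ∧ ∀ D ∈ Pw,
      (∀ u ∈ Z, ∀ w ∈ Z, pair u w ∈ E → (u ∈ D ↔ w ∉ D)) → (x ∈ D ↔ y ∈ D)) (by
      (repeat' first
        | assumption
        | exact DfnF.proj _
        | exact DfnF.const (by assumption)
        | apply Dfn.not | apply Dfn.and | apply Dfn.or | apply Dfn.imp | apply Dfn.iff
        | apply hB.bex | apply hB.ball
        | apply Dfn.eq | apply Dfn.mem | apply hB.pair')) hX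
    refine ⟨_, (hPw' _).2 ⟨h3, fun u hu => (ZFSet.mem_sep.1 hu).1⟩, fun y => ?_⟩
    rw [ZFSet.mem_sep]
    refine and_congr_right fun _ => ?_
    constructor
    · rintro ⟨Z, hZ, h4⟩
      exact ⟨Z, ((hFS' Z).1 hZ).1, ((hFS' Z).1 hZ).2, h4⟩
    · rintro ⟨Z, hZ, hZ', h4⟩
      exact ⟨Z, (hFS' Z).2 ⟨hZ, hZ'⟩, h4⟩
  have hA1 : ∀ x ∈ X, ∃ A ∈ Pw, ∀ y, y ∈ A ↔ y ∈ X ∧ Q1 M E Pw x y := by
    intro x hx
    have hxM := hM.trans _ hX _ hx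
    have h3 := hM.sep_mem (Q := fun y => ∃ Z ∈ FS, x ∈ Z ∧ y ∈ Z ∧ ∀ D ∈ Pw,
      (∀ u ∈ Z, ∀ w ∈ Z, pair u w ∈ E → (u ∈ D ↔ w ∉ D)) → (x ∈ D ↔ y ∉ D)) (by
      (repeat' first
        | assumption
        | exact DfnF.proj _
        | exact DfnF.const (by assumption)
        | apply Dfn.not | apply Dfn.and | apply Dfn.or | apply Dfn.imp | apply Dfn.iff
        | apply hB.bex | apply hB.ball
        | apply Dfn.eq | apply Dfn.mem | apply hB.pair')) hX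
    refine ⟨_, (hPw' _).2 ⟨h3, fun u hu => (ZFSet.mem_sep.1 hu).1⟩, fun y => ?_⟩
    rw [ZFSet.mem_sep]
    refine and_congr_right fun _ => ?_
    constructor
    · rintro ⟨Z, hZ, h4⟩
      exact ⟨Z, ((hFS' Z).1 hZ).1, ((hFS' Z).1 hZ).2, h4⟩
    · rintro ⟨Z, hZ, hZ', h4⟩
      exact ⟨Z, (hFS' Z).2 ⟨hZ, hZ'⟩, h4⟩
  -- the family of the pairs of the classes
  have hF := hM.sep_mem (Q := fun p => ∃ x ∈ X, ∃ A ∈ Pw, ∃ B ∈ Pw, p = {A, B} ∧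
    (∀ y ∈ X, (y ∈ A ↔ ∃ Z ∈ FS, x ∈ Z ∧ y ∈ Z ∧ ∀ D ∈ Pw,
      (∀ u ∈ Z, ∀ w ∈ Z, pair u w ∈ E → (u ∈ D ↔ w ∉ D)) → (x ∈ D ↔ y ∈ D))) ∧
    (∀ y ∈ X, (y ∈ B ↔ ∃ Z ∈ FS, x ∈ Z ∧ y ∈ Z ∧ ∀ D ∈ Pw,
      (∀ u ∈ Z, ∀ w ∈ Z, pair u w ∈ E → (u ∈ D ↔ w ∉ D)) → (x ∈ D ↔ y ∉ D)))) (by
    (repeat' first
      | assumption
      | exact DfnF.proj _
      | exact DfnF.const (by assumption)
      | apply Dfn.not | apply Dfn.and | apply Dfn.or | apply Dfn.imp | apply Dfn.iff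
      | apply hB.bex | apply hB.ball
      | apply Dfn.eq | apply Dfn.mem | apply hB.pair' | apply hB.upair')) hPP
  obtain ⟨Fm, hFm, hFm'⟩ : ∃ Fm ∈ M, ∀ p, p ∈ Fm ↔ ∃ x ∈ X, ∃ A ∈ Pw, ∃ B ∈ Pw, p = {A, B} ∧
      (∀ y, y ∈ A ↔ y ∈ X ∧ Q0 M E Pw x y) ∧ (∀ y, y ∈ B ↔ y ∈ X ∧ Q1 M E Pw x y) := by
    refine ⟨_, hF, fun p => ?_⟩
    rw [ZFSet.mem_sep]
    have hq0 : ∀ x y, Q0 M E Pw x y ↔ ∃ Z ∈ FS, x ∈ Z ∧ y ∈ Z ∧ ∀ D ∈ Pw,
        (∀ u ∈ Z, ∀ w ∈ Z, pair u w ∈ E → (u ∈ D ↔ w ∉ D)) → (x ∈ D ↔ y ∈ D) := by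
      intro x y
      constructor
      · rintro ⟨Z, hZ, hZ', h4⟩
        exact ⟨Z, (hFS' Z).2 ⟨hZ, hZ'⟩, h4⟩
      · rintro ⟨Z, hZ, h4⟩
        exact ⟨Z, ((hFS' Z).1 hZ).1, ((hFS' Z).1 hZ).2, h4⟩
    have hq1 : ∀ x y, Q1 M E Pw x y ↔ ∃ Z ∈ FS, x ∈ Z ∧ y ∈ Z ∧ ∀ D ∈ Pw,
        (∀ u ∈ Z, ∀ w ∈ Z, pair u w ∈ E → (u ∈ D ↔ w ∉ D)) → (x ∈ D ↔ y ∉ D) := by
      intro x y
      constructor
      · rintro ⟨Z, hZ, hZ', h4⟩
        exact ⟨Z, (hFS' Z).2 ⟨hZ, hZ'⟩, h4⟩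
      · rintro ⟨Z, hZ, h4⟩
        exact ⟨Z, ((hFS' Z).1 hZ).1, ((hFS' Z).1 hZ).2, h4⟩
    constructor
    · rintro ⟨-, x, hx, A, hA, B, hB', h4, h5, h6⟩
      refine ⟨x, hx, A, hA, B, hB', h4, fun y => ?_, fun y => ?_⟩
      · constructor
        · intro hy
          have hyX := ((hPw' A).1 hA).2 hy
          exact ⟨hyX, (hq0 x y).2 ((h5 y hyX).1 hy)⟩
        · rintro ⟨hyX, h7⟩
          exact (h5 y hyX).2 ((hq0 x y).1 h7)
      · constructor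
        · intro hy
          have hyX := ((hPw' B).1 hB').2 hy
          exact ⟨hyX, (hq1 x y).2 ((h6 y hyX).1 hy)⟩
        · rintro ⟨hyX, h7⟩
          exact (h6 y hyX).2 ((hq1 x y).1 h7)
    · rintro ⟨x, hx, A, hA, B, hB', rfl, h5, h6⟩
      have hAM := hM.trans _ hPw _ hA
      have hBM := hM.trans _ hPw _ hB'
      refine ⟨(hPP' _).2 ⟨hM.pairing _ hAM _ hBM, fun z hz => ?_⟩, x, hx, A, hA, B, hB', rfl,
        fun y hy => ?_, fun y hy => ?_⟩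
      · rcases ZFSet.mem_pair.1 hz with rfl | rfl
        · exact hA
        · exact hB'
      · rw [h5, ← hq0]
        exact ⟨fun h => h.2, fun h => ⟨hy, h⟩⟩
      · rw [h6, ← hq1]
        exact ⟨fun h => h.2, fun h => ⟨hy, h⟩⟩
  obtain ⟨f, hf, hf'⟩ := hA Fm hFm (by
    intro p hp
    obtain ⟨x, hx, A, hA, B, hB', rfl, h5, h6⟩ := (hFm' p).1 hp
    refine ⟨A, B, fun h => ?_, rfl⟩
    have h7 : x ∈ A := (h5 x).2 ⟨hx, q0_refl hM hX hPw' hx⟩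
    have h8 : x ∈ B := h ▸ h7
    exact not_q0_q1 hM hPw' hcol (q0_refl hM hX hPw' hx) ((h6 x).1 h8).2)
  -- the colouring
  have hD := hM.sep_mem (Q := fun x => ∃ p ∈ Fm, ∃ A ∈ p, pair p A ∈ f ∧ x ∈ A) (by
    (repeat' first
      | assumption
      | exact DfnF.proj _
      | exact DfnF.const (by assumption)
      | apply Dfn.not | apply Dfn.and | apply Dfn.or | apply Dfn.imp | apply Dfn.iff
      | apply hB.bex | apply hB.ball
      | apply Dfn.eq | apply Dfn.mem | apply hB.pair')) hX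
  obtain ⟨D, hDM, hD'⟩ : ∃ D ∈ M, ∀ x, x ∈ D ↔ x ∈ X ∧ ∃ p ∈ Fm, ∃ A ∈ p, pair p A ∈ f ∧ x ∈ A :=
    ⟨_, hD, fun x => ZFSet.mem_sep⟩
  have hext : ∀ A ∈ Pw, ∀ B ∈ Pw, (∀ y, y ∈ A ↔ y ∈ B) → A = B := fun A _ B _ h => by
    ext y
    exact h y
  have hDp : Pr E X D := by
    intro u hu w hw huw
    have h1 := q1_edge hM hX hPw' hu hw huw
    -- the pair of the classes of `u`
    obtain ⟨A, hAP, hAm⟩ := hA0 u hu
    obtain ⟨B, hBP, hBm⟩ := hA1 u hu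
    have hpF : ({A, B} : ZFSet.{0}) ∈ Fm := (hFm' _).2 ⟨u, hu, A, hAP, B, hBP, rfl, hAm, hBm⟩
    -- every pair with a class that contains `u` or `w` is this pair
    have huniq : ∀ p ∈ Fm, ∀ C ∈ p, (u ∈ C ∨ w ∈ C) → p = {A, B} := by
      intro p hp C hC huC
      obtain ⟨x, hx, A', hA', B', hB'', rfl, h5, h6⟩ := (hFm' p).1 hp
      have h7 : Q0 M E Pw x u ∨ Q1 M E Pw x u := by
        rcases ZFSet.mem_pair.1 hC with rfl | rfl
        · rcases huC with h | h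
          · exact Or.inl ((h5 u).1 h).2
          · exact Or.inr ((htr x w u).2.1 ((h5 w).1 h).2 (q1_symm h1))
        · rcases huC with h | h
          · exact Or.inr ((h6 u).1 h).2
          · exact Or.inl ((htr x w u).2.2.2 ((h6 w).1 h).2 (q1_symm h1))
      rcases h7 with h7 | h7
      · have h8 : A' = A := hext _ hA' _ hAP fun y => by
          rw [h5, hAm]
          exact and_congr_right fun _ => ⟨(htr u x y).1 (q0_symm h7), (htr x u y).1 h7⟩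
        have h9 : B' = B := hext _ hB'' _ hBP fun y => by
          rw [h6, hBm]
          exact and_congr_right fun _ => ⟨(htr u x y).2.1 (q0_symm h7), (htr x u y).2.1 h7⟩
        rw [h8, h9]
      · have h8 : A' = B := hext _ hA' _ hBP fun y => by
          rw [h5, hBm]
          exact and_congr_right fun _ =>
            ⟨(htr u x y).2.2.1 (q1_symm h7), (htr x u y).2.2.2 h7⟩
        have h9 : B' = A := hext _ hB'' _ hAP fun y => by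
          rw [h6, hAm]
          exact and_congr_right fun _ =>
            ⟨(htr u x y).2.2.2 (q1_symm h7), (htr x u y).2.2.1 h7⟩
        rw [h8, h9]
        ext z
        rw [ZFSet.mem_pair, ZFSet.mem_pair, or_comm]
    obtain ⟨C, hC, hfC⟩ := hf' _ hpF
    have hDu : u ∈ D ↔ u ∈ C := by
      rw [hD']
      constructor
      · rintro ⟨-, p, hp, A', hA', h5, h6⟩
        have h7 := huniq p hp A' hA' (Or.inl h6)
        subst h7
        rwa [← (hfC A').1 h5]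
      · intro h
        exact ⟨hu, _, hpF, C, hC, (hfC C).2 rfl, h⟩
    have hDw : w ∈ D ↔ w ∈ C := by
      rw [hD']
      constructor
      · rintro ⟨-, p, hp, A', hA', h5, h6⟩
        have h7 := huniq p hp A' hA' (Or.inr h6)
        subst h7
        rwa [← (hfC A').1 h5]
      · intro h
        exact ⟨hw, _, hpF, C, hC, (hfC C).2 rfl, h⟩
    rw [hDu, hDw]
    have huA : u ∈ A := (hAm u).2 ⟨hu, q0_refl hM hX hPw' hu⟩
    have hwB : w ∈ B := (hBm w).2 ⟨hw, h1⟩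
    have huB : u ∉ B := fun h =>
      not_q0_q1 hM hPw' hcol (q0_refl hM hX hPw' hu) ((hBm u).1 h).2
    have hwA : w ∉ A := fun h => not_q0_q1 hM hPw' hcol ((hAm w).1 h).2 h1
    rcases ZFSet.mem_pair.1 hC with rfl | rfl
    · exact ⟨fun _ => hwA, fun _ => huA⟩
    · exact ⟨fun h => absurd h huB, fun h => absurd hwB h⟩
  -- the map
  have hh := hM.sep_mem (Q := fun p => ∃ x ∈ X, (p = pair x (nat 1) ∧ x ∈ D) ∨
    (p = pair x (nat 0) ∧ x ∉ D)) (by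
    (repeat' first
      | assumption
      | exact DfnF.proj _
      | exact DfnF.const (by assumption)
      | apply Dfn.not | apply Dfn.and | apply Dfn.or | apply Dfn.imp | apply Dfn.iff
      | apply hB.bex | apply hB.ball
      | apply Dfn.eq | apply Dfn.mem | apply hB.pair')) (hM.prod_mem hX h2M)
  have hmh : ∀ x i, pair x i ∈ ZFSet.sep (fun p => ∃ x ∈ X, (p = pair x (nat 1) ∧ x ∈ D) ∨
      (p = pair x (nat 0) ∧ x ∉ D)) (ZFSet.prod X (nat 2)) ↔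
      x ∈ X ∧ ((i = nat 1 ∧ x ∈ D) ∨ (i = nat 0 ∧ x ∉ D)) := by
    intro x i
    rw [ZFSet.mem_sep, ZFSet.pair_mem_prod]
    constructor
    · rintro ⟨⟨hx, -⟩, x', -, ⟨h, h'⟩ | ⟨h, h'⟩⟩
      · obtain ⟨rfl, rfl⟩ := ZFSet.pair_inj.1 h
        exact ⟨hx, Or.inl ⟨rfl, h'⟩⟩
      · obtain ⟨rfl, rfl⟩ := ZFSet.pair_inj.1 h
        exact ⟨hx, Or.inr ⟨rfl, h'⟩⟩
    · rintro ⟨hx, ⟨rfl, h'⟩ | ⟨rfl, h'⟩⟩
      · exact ⟨⟨hx, (nat_two _).2 (Or.inr rfl)⟩, x, hx, Or.inl ⟨rfl, h'⟩⟩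
      · exact ⟨⟨hx, (nat_two _).2 (Or.inl rfl)⟩, x, hx, Or.inr ⟨rfl, h'⟩⟩
  refine ⟨_, hh, ⟨fun p hp => (ZFSet.mem_sep.1 hp).1, fun x hx => ?_⟩, fun a ha b hb hab i h3 h4 => ?_⟩
  · by_cases h : x ∈ D
    · refine ⟨nat 1, (hmh _ _).2 ⟨hx, Or.inl ⟨rfl, h⟩⟩, fun i hi => ?_⟩
      rcases ((hmh _ _).1 hi).2 with ⟨rfl, -⟩ | ⟨-, h'⟩
      · rfl
      · exact absurd h h'
    · refine ⟨nat 0, (hmh _ _).2 ⟨hx, Or.inr ⟨rfl, h⟩⟩, fun i hi => ?_⟩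
      rcases ((hmh _ _).1 hi).2 with ⟨-, h'⟩ | ⟨rfl, -⟩
      · exact absurd h' h
      · rfl
  · have h5 := hDp a ha b hb hab
    rcases ((hmh _ _).1 h3).2 with ⟨rfl, h6⟩ | ⟨rfl, h6⟩ <;>
      rcases ((hmh _ _).1 h4).2 with ⟨h7, h8⟩ | ⟨h7, h8⟩
    · exact h5.1 h6 h8
    · exact h10 h7
    · exact h10 h7.symm
    · exact h6 (h5.2 h8)

end Pool.Agent.R598.LX
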