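import Pool.Agent.R598.LX.Base

/-!
# The key lemma: minimal supports of the elements of two-element sets
-/

set_option autoImplicit false

namespace Pool.Agent.R598.LX

open Pool.Agent.W868 Pool.Agent.W868.PName Pool.Agent.R598.SY
open ZFSet (pair)

/-- The triple is good. -/
def Good (W : Submodule K V) (q : Cd) (B x : PName Cd) : Prop :=
  ∀ g ∈ fx W, ∀ r, r ≤ q → r ≤ mv g q → Feq (act (acH g) B) B r → Feq (act (acH g) x) x r

/-- The condition forces that no element of `F` has three different elements. -/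
def Two (F : PName Cd) (p : Cd) : Prop :=
  ∀ t ≤ p, ∀ B x y z, sy.HS B → sy.HS x → sy.HS y → sy.HS z → Fmem B F t →
    Fmem x B t → Fmem y B t → Fmem z B t → NF x y t → NF x z t → NF y z t → False

/-! ### Conditions -/

/-- Separating the elements of a finite-dimensional subspace. -/
theorem exists_sepc {E : Submodule K V} [Module.Finite K E] {q : Cd}
    (hq : ∀ a y, (a, y) ∈ q.s → a ∈ E) :
    ∃ q' ≤ q, (∀ a y, (a, y) ∈ q'.s → a ∈ E) ∧ ∀ z ∈ E, ∀ z' ∈ E, z ≠ z' →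
      ∃ n b, (z, n, b) ∈ q'.s ∧ (z', n, !b) ∈ q'.s := by
  classical
  obtain ⟨N, hN⟩ := (q.fin.image fun x : V × ℕ × Bool => x.2.1).bddAbove
  obtain ⟨ι, hι⟩ := Countable.exists_injective_nat V
  have hE := finite_sub E
  let f : V × V → V × ℕ × Bool := fun t => (t.2, N + 1 + ι t.1, decide (t.2 = t.1))
  have hnew : (f '' ((E : Set V) ×ˢ (E : Set V))).Finite := (hE.prod hE).image f
  have hfn : ∀ a n, (a, n, true) ∈ q.s ∪ f '' ((E : Set V) ×ˢ (E : Set V)) →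
      (a, n, false) ∉ q.s ∪ f '' ((E : Set V) ×ˢ (E : Set V)) := by
    intro a n h1 h2
    rcases h1 with h1 | ⟨⟨z, z'⟩, ⟨hz, hz'⟩, h1⟩ <;>
      rcases h2 with h2 | ⟨⟨w, w'⟩, ⟨hw, hw'⟩, h2⟩
    · exact q.fn a n h1 h2
    · obtain ⟨rfl, h3⟩ := Prod.mk.inj h2
      obtain ⟨rfl, h4⟩ := Prod.mk.inj h3
      have h5 := hN ⟨_, h1, rfl⟩
      simp only at h5
      omega
    · obtain ⟨rfl, h3⟩ := Prod.mk.inj h1
      obtain ⟨rfl, h4⟩ := Prod.mk.inj h3
      have h5 := hN ⟨_, h2, rfl⟩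
      simp only at h5
      omega
    · obtain ⟨rfl, h3⟩ := Prod.mk.inj h1
      obtain ⟨rfl, h4⟩ := Prod.mk.inj h3
      obtain ⟨h5, h6⟩ := Prod.mk.inj h2
      obtain ⟨h7, h8⟩ := Prod.mk.inj h6
      simp only at h4 h5 h7 h8
      have h9 : w = z := hι (by omega)
      rw [h5, h9, h4] at h8
      simp at h8
  refine ⟨⟨_, q.fin.union hnew, hfn⟩, Set.subset_union_left, ?_, ?_⟩
  · rintro a y (h | ⟨⟨z, z'⟩, ⟨hz, hz'⟩, h⟩)
    · exact hq a y h
    · rw [← (Prod.mk.inj h).1]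
      exact hz'
  · intro z hz z' hz' hne
    refine ⟨N + 1 + ι z, true, Or.inr ⟨(z, z), ⟨hz, hz⟩, ?_⟩, Or.inr ⟨(z, z'), ⟨hz, hz'⟩, ?_⟩⟩
    · simp [f]
    · simp [f, hne.symm]

section

variable {x : PName Cd} {T S : Submodule K V} {bS : Cd}

/-- The name with a smaller support. -/
noncomputable def xp (x : PName Cd) (T : Submodule K V) (bS : Cd) : PName Cd :=
  PName.mk {t : G × x.idx × Cd // t.1 ∈ fx T ∧ t.2.2 ≤ mv t.1 bS ∧
    Fmem (act (acH t.1) (x.chd t.2.1)) (act (acH t.1) x) t.2.2}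
    (fun t => act (acH t.1.1) (x.chd t.1.2.1)) (fun t => t.1.2.2)

theorem el_xp {z : PName Cd} {c : Cd} : El (xp x T bS) z c ↔ ∃ g ∈ fx T, ∃ w d, El x w d ∧
    z = act (acH g) w ∧ c ≤ mv g bS ∧ Fmem z (act (acH g) x) c := by
  rw [xp, el_mk]
  constructor
  · rintro ⟨⟨⟨g, i, c'⟩, h1, h2, h3⟩, rfl, rfl⟩
    exact ⟨g, h1, _, _, ⟨i, rfl, rfl⟩, rfl, h2, h3⟩
  · rintro ⟨g, h1, w, d, ⟨i, rfl, rfl⟩, rfl, h2, h3⟩
    exact ⟨⟨(g, i, c), h1, h2, h3⟩, rfl, rfl⟩

theorem acH_mul (g h : G) (x : PName Cd) : act (acH (g * h)) x = act (acH g) (act (acH h) x) := by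
  rw [acH.map_mul, act_mul]

theorem mv_mul (g h : G) (p : Cd) : mv (g * h) p = mv g (mv h p) := rfl

theorem acH_one (x : PName Cd) : act (acH 1) x = x := by
  rw [acH.map_one, act_one]

theorem mv_one (p : Cd) : mv 1 p = p := rfl

theorem acH_inv (g : G) (x : PName Cd) : act (acH g⁻¹) (act (acH g) x) = x := by
  rw [← acH_mul, inv_mul_cancel, acH_one]

theorem acH_inv' (g : G) (x : PName Cd) : act (acH g) (act (acH g⁻¹) x) = x := by
  rw [← acH_mul, mul_inv_cancel, acH_one]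

theorem mv_inv (g : G) (p : Cd) : mv g⁻¹ (mv g p) = p := mv_symm_mv g p

theorem mv_inv' (g : G) (p : Cd) : mv g (mv g⁻¹ p) = p := mv_mv_symm g p

theorem le_mv_iff {g : G} {p q : Cd} : p ≤ mv g q ↔ mv g⁻¹ p ≤ q := by
  constructor
  · intro h
    have h1 := mv_le (g := g⁻¹) h
    rwa [mv_inv] at h1
  · intro h
    have h1 := mv_le (g := g) h
    rwa [mv_inv'] at h1

theorem feq_mv {g : G} {x y : PName Cd} {p : Cd} (h : Feq x y (mv g⁻¹ p)) :
    Feq (act (acH g) x) (act (acH g) y) p := by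
  have h1 := feq_act' (e := acH g) h
  rwa [ac_apply, mv_inv'] at h1

theorem sp_xp : Sp T (xp x T bS) := by
  have key : ∀ g ∈ fx T, ∀ z c, El (xp x T bS) z c → El (xp x T bS) (act (acH g) z) (mv g c) := by
    intro g hg z c h
    obtain ⟨k, hk, w, d, h1, rfl, h2, h3⟩ := el_xp.1 h
    refine el_xp.2 ⟨g * k, (fx T).mul_mem hg hk, w, d, h1, (acH_mul g k w).symm,
      mv_le (g := g) h2, ?_⟩
    have h4 := fmem_act' (e := acH g) h3
    rwa [← acH_mul g k x] at h4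
  intro g hg p
  refine feq_of_el fun z c => ?_
  rw [el_act]
  constructor
  · rintro ⟨z, c, h, rfl, rfl⟩
    exact key g hg z c h
  · intro h
    refine ⟨_, _, key g⁻¹ ((fx T).inv_mem hg) z c h, (acH_inv' g z).symm, ?_⟩
    exact (mv_inv' g c).symm

theorem hs_xp [hT : Module.Finite K T] (hx : sy.HS x) : sy.HS (xp x T bS) := by
  refine sy.hs_iff.2 ⟨⟨fx T, ⟨T, hT, rfl⟩, sp_xp⟩, fun z c hz => ?_⟩
  obtain ⟨g, -, w, d, h1, rfl, -, -⟩ := el_xp.1 hz
  exact sy.hs_act (hx.el h1) g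

theorem feq_xp (h : ∀ g ∈ fx T, ∀ s, s ≤ bS → s ≤ mv g bS → Feq x (act (acH g) x) s) {b : Cd}
    (hb : b ≤ bS) : Feq (xp x T bS) x b := by
  rw [feq_iff']
  constructor
  · intro a c ha q hq hqc
    obtain ⟨g, hg, w, d, h1, rfl, h2, h3⟩ := el_xp.1 ha
    have h4 := h g hg q (hq.trans hb) (hqc.trans h2)
    have h5 : Fmem (act (acH g) w) x q := fmem_congr (Feq.refl _ _) h4.symm (h3.mono hqc)
    exact fmem_iff.1 h5 q le_rfl
  · intro a c ha q hq hqc
    refine ⟨q, le_rfl, a, q, el_xp.2 ⟨1, (fx T).one_mem, a, c, ha, (acH_one a).symm,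
      hq.trans hb, ?_⟩, le_rfl, Feq.refl _ _⟩
    rw [acH_one]
    exact fmem_iff.2 fun r hr => ⟨r, le_rfl, a, c, ha, hr.trans hqc, Feq.refl _ _⟩

end

/-- From one independent copy to all copies. -/
theorem all_copies {x : PName Cd} {T S : Submodule K V} [Module.Finite K T] [Module.Finite K S]
    (hTS : T ≤ S) (hSx : Sp S x) {bS : Cd} (hbS : ∀ a y, (a, y) ∈ bS.s → a ∈ S) {ρ : G}
    (hρT : ρ ∈ fx T) (hρS : ∀ s ∈ S, ρ s ∈ S → s ∈ T)
    (h : ∀ s, s ≤ bS → s ≤ mv ρ bS → Feq x (act (acH ρ) x) s) :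
    ∀ g ∈ fx T, ∀ s, s ≤ bS → s ≤ mv g bS → Feq x (act (acH g) x) s := by
  -- independent copies
  have P3 : ∀ g ∈ fx T, (∀ s ∈ S, g s ∈ S → s ∈ T) → ∀ s, s ≤ bS → s ≤ mv g bS →
      Feq x (act (acH g) x) s := by
    intro g hg hgS s hs hs'
    obtain ⟨θ, hθ, hθ'⟩ := exists_hom (S := S) (T := T) hρT hg hρS hgS
    have hθS : θ ∈ fx S := hθ
    have h1 : mv θ⁻¹ s ≤ bS := by
      rintro ⟨a, y⟩ ha
      have h2 : (θ a, y) ∈ s.s := by
        rw [hθ a (hbS a y ha)]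
        exact hs ha
      exact h2
    have h2 : mv θ⁻¹ s ≤ mv ρ bS := by
      rintro ⟨a, y⟩ ha
      have h3 : (ρ.symm a, y) ∈ bS.s := ha
      have h4 := hθ' _ (hbS _ y h3)
      rw [LinearEquiv.apply_symm_apply] at h4
      have h5 : (θ a, y) ∈ s.s := by
        rw [h4]
        exact hs' (mem_mv'.2 h3)
      exact h5
    have h3 := feq_mv (h _ h1 h2)
    have h4 : Feq x (act (acH θ) x) s := (hSx θ hθS s).symm
    have h5 : g⁻¹ * (θ * ρ) ∈ fx S := by
      intro a ha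
      change g.symm (θ (ρ a)) = a
      rw [hθ' a ha, LinearEquiv.symm_apply_apply]
    have h6 : Feq (act (acH θ) (act (acH ρ) x)) (act (acH g) x) s := by
      have h7 := feq_mv (g := g) (hSx _ h5 (mv g⁻¹ s))
      rwa [← acH_mul, mul_inv_cancel_left, acH_mul] at h7
    exact feq_trans h4 (feq_trans h3 h6)
  intro g hg s hs hs'
  refine feq_dense fun s' hs'' => ?_
  have hsg : s' ≤ mv g bS := hs''.trans hs'
  have hs1 : s' ≤ bS := hs''.trans hs
  obtain ⟨π, hπ, hπD⟩ := exists_fresh (W := T) (E := S ⊔ (S.map g.toLinearMap ⊔ dm s'))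
    (hTS.trans le_sup_left)
  have hD1 : S ≤ S ⊔ (S.map g.toLinearMap ⊔ dm s') := le_sup_left
  have hD2 : S.map g.toLinearMap ≤ S ⊔ (S.map g.toLinearMap ⊔ dm s') :=
    le_sup_left.trans le_sup_right
  have hD3 : dm s' ≤ S ⊔ (S.map g.toLinearMap ⊔ dm s') := le_sup_right.trans le_sup_right
  have hπT : π ∈ fx T := hπ
  obtain ⟨r, hr⟩ := exists_un (p := s') (q := mv π bS) (by
    intro a n b b' h1 h2
    have h3 : (π.symm a, n, b') ∈ bS.s := h2
    have h4 : π.symm a ∈ T := by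
      refine hπD _ (hD1 (hbS _ _ h3)) ?_
      rw [LinearEquiv.apply_symm_apply]
      exact hD3 (mem_dm h1)
    have h5 : π.symm a = a := by
      have h6 := hπ _ h4
      rw [LinearEquiv.apply_symm_apply] at h6
      exact h6.symm
    rw [h5] at h3
    exact s'.fn' h1 (hs1 h3))
  have hrs : r ≤ s' := by
    rw [le_def, hr]
    exact Set.subset_union_left
  have hrπ : r ≤ mv π bS := by
    rw [le_def, hr]
    exact Set.subset_union_right
  refine ⟨r, hrs, ?_⟩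
  have h1 : Feq x (act (acH π) x) r :=
    P3 π hπT (fun a ha h => hπD a (hD1 ha) (hD1 h)) r (hrs.trans hs1) hrπ
  have h2 : Feq x (act (acH (g⁻¹ * π)) x) (mv g⁻¹ r) := by
    refine P3 (g⁻¹ * π) ((fx T).mul_mem ((fx T).inv_mem hg) hπT) (fun a ha h => ?_) _
      (le_mv_iff.1 (hrs.trans hsg)) ?_
    · refine hπD a (hD1 ha) (hD2 ⟨g.symm (π a), h, ?_⟩)
      exact LinearEquiv.apply_symm_apply g (π a)
    · rw [mv_mul]
      exact mv_le hrπ
  have h3 := feq_mv h2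
  rw [← acH_mul, mul_inv_cancel_left] at h3
  exact feq_trans h1 h3.symm

end Pool.Agent.R598.LX
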