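import Pool.Agent.R598.LX.Key

/-!
# The key lemma: good triples
-/

set_option autoImplicit false

namespace Pool.Agent.R598.LX

open Pool.Agent.W868 Pool.Agent.W868.PName Pool.Agent.R598.SY
open ZFSet (pair)

theorem feq_of_two {F B x y z : PName Cd} {p0 t : Cd} (hF : Two F p0) (ht : t ≤ p0)
    (hB : sy.HS B) (hx : sy.HS x) (hy : sy.HS y) (hz : sy.HS z) (hBF : Fmem B F t)
    (hxB : Fmem x B t) (hyB : Fmem y B t) (hzB : Fmem z B t) (hxy : NF x y t) (hxz : NF x z t) :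
    Feq y z t := by
  by_contra h
  obtain ⟨q, hq, h1⟩ := exists_nf h
  exact hF q (hq.trans ht) B x y z hB hx hy hz (hBF.mono hq) (hxB.mono hq) (hyB.mono hq)
    (hzB.mono hq) (hxy.mono hq) (hxz.mono hq) h1

theorem NF.symm {x y : PName Cd} {p : Cd} (h : NF x y p) : NF y x p := fun q hq hf =>
  h q hq hf.symm

theorem NF.congr {x x' y : PName Cd} {p : Cd} (h : NF x y p) (hx : Feq x x' p) : NF x' y p :=
  fun q hq hf => h q hq (feq_trans (hx.mono hq) hf)

set_option maxHeartbeats 2000000 in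
/-- A triple that is not good gives a smaller support. -/
theorem key_step {F B x : PName Cd} {W S : Submodule K V} [Module.Finite K W]
    [Module.Finite K S] {p0 p q : Cd} (hF : Two F p0) (hB : sy.HS B) (hx : sy.HS x) (hp : p ≤ p0)
    (hBF : Fmem B F p) (hq : q ≤ p) (hxB : Fmem x B q) (hWS : W ≤ S) (hS : Sp S x)
    (hng : ∀ q' ≤ q, ¬ Good W q' B x) :
    ∃ b ≤ q, ∃ x', ∃ T : Submodule K V, Module.Finite K T ∧ W ≤ T ∧ T < S ∧ sy.HS x' ∧
      Sp T x' ∧ Fmem x' B b := by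
  obtain ⟨WB, hWB, hBs⟩ := hs_supp hB
  obtain ⟨E, hE⟩ : ∃ E : Submodule K V, E = S ⊔ (WB ⊔ dm q) := ⟨_, rfl⟩
  have hEf : Module.Finite K E := by
    rw [hE]
    infer_instance
  have hSE : S ≤ E := hE ▸ le_sup_left
  have hBE : Sp E B := hBs.mono (hE ▸ le_sup_left.trans le_sup_right)
  have hqE : ∀ a y, (a, y) ∈ q.s → a ∈ E := by
    intro a y h
    rw [hE]
    exact (le_sup_right.trans le_sup_right : dm q ≤ S ⊔ (WB ⊔ dm q)) (mem_dm h)
  obtain ⟨q1, hq1, hq1E, hsep⟩ := exists_sepc hqE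
  -- the failure
  have h1 := hng q1 hq1
  unfold Good at h1
  push Not at h1
  obtain ⟨σ, hσ, r0, hr0, hr0', hr0B, hr0x⟩ := h1
  obtain ⟨r, hr1, hrx⟩ := exists_nf hr0x
  have hr := hr1.trans hr0
  have hr' := hr1.trans hr0'
  have hrB := hr0B.mono hr1
  obtain ⟨E1, hE1⟩ : ∃ E1 : Submodule K V, E1 = E.map σ.toLinearMap := ⟨_, rfl⟩
  have hE1f : Module.Finite K E1 := by
    rw [hE1]
    infer_instance
  have hmE1 : ∀ a ∈ E, σ a ∈ E1 := fun a ha => hE1 ▸ ⟨a, ha, rfl⟩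
  have hmE1' : ∀ a ∈ E1, ∃ c ∈ E, σ c = a := by
    intro a ha
    rw [hE1] at ha
    obtain ⟨c, hc, h⟩ := ha
    exact ⟨c, hc, h⟩
  have hσx : Sp E1 (act (acH σ) x) := hE1 ▸ (hS.mono hSE).act σ
  have hσB : Sp E1 (act (acH σ) B) := hE1 ▸ hBE.act σ
  -- restrict the condition
  obtain ⟨r2, hr2⟩ : ∃ r2, r2 = rs (E ⊔ E1) r := ⟨_, rfl⟩
  have hr2B : Feq (act (acH σ) B) B r2 := by
    rw [hr2]
    exact restr_feq (hσB.mono le_sup_right) (hBE.mono le_sup_left) hrB
  have hr2x : NF (act (acH σ) x) x r2 := by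
    rw [hr2]
    exact restr_nf (hσx.mono le_sup_right) ((hS.mono hSE).mono le_sup_left) hrx
  have hr2q : r2 ≤ q1 := by
    rintro ⟨a, y⟩ h
    rw [hr2]
    exact mem_rs.2 ⟨hr h, (le_sup_left : E ≤ E ⊔ E1) (hq1E a y h)⟩
  have hr2q' : r2 ≤ mv σ q1 := by
    rintro ⟨a, y⟩ h
    rw [hr2]
    refine mem_rs.2 ⟨hr' h, (le_sup_right : E1 ≤ E ⊔ E1) ?_⟩
    have h1 := hmE1 _ (hq1E _ y (mem_mv.1 h))
    rwa [LinearEquiv.apply_symm_apply] at h1
  have hr2E : ∀ a y, (a, y) ∈ r2.s → a ∈ E ⊔ E1 := by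
    intro a y h
    rw [hr2] at h
    exact h.2
  -- the automorphism is the identity where it matters
  have hid : ∀ z ∈ E, σ z ∈ E → σ z = z := by
    intro z hz hσz
    by_contra hne
    obtain ⟨n, b, h1, h2⟩ := hsep _ hσz _ hz hne
    have h3 := hr2q' (mem_mv'.2 h2)
    have h4 := r2.fn' (hr2q h1) h3
    cases b <;> simp at h4
  have hU : ∀ u ∈ E, u ∈ E1 → σ u = u := by
    intro u hu hu1
    obtain ⟨z, hz, hzu⟩ := hmE1' u hu1
    have h1 : σ z = z := hid z hz (hzu ▸ hu)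
    have h2 : u = z := hzu.symm.trans h1
    rw [h2]
    exact h1
  obtain ⟨T, hT⟩ : ∃ T : Submodule K V, T = S ⊓ E1 := ⟨_, rfl⟩
  have hTS : T ≤ S := hT ▸ inf_le_left
  have hTf : Module.Finite K T := Submodule.finiteDimensional_of_le hTS
  have hWT : W ≤ T := by
    intro w hw
    rw [hT]
    refine ⟨hWS hw, ?_⟩
    have h1 := hmE1 w (hSE (hWS hw))
    rwa [hσ w hw] at h1
  have hTne : T ≠ S := by
    intro h
    have h1 : σ ∈ fx S := by
      intro s hs
      have h2 : s ∈ T := h ▸ hs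
      rw [hT] at h2
      exact hU s (hSE hs) h2.2
    exact hr2x r2 le_rfl (hS σ h1 r2)
  -- a fresh copy
  obtain ⟨τ, hτ, hτE⟩ := exists_fresh (W := E) (E := E ⊔ E1) le_sup_left
  have hEE : E ≤ E ⊔ E1 := le_sup_left
  have hEE1 : E1 ≤ E ⊔ E1 := le_sup_right
  have hτE' : τ ∈ fx E := hτ
  obtain ⟨t, ht⟩ := exists_un (p := r2) (q := mv τ r2) (by
    intro a n b b' h1 h2
    have h3 : (τ.symm a, n, b') ∈ r2.s := h2
    have h4 : τ.symm a ∈ E := by
      refine hτE _ (hr2E _ _ h3) ?_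
      rw [LinearEquiv.apply_symm_apply]
      exact hr2E _ _ h1
    have h5 : τ.symm a = a := by
      have h6 := hτ _ h4
      rw [LinearEquiv.apply_symm_apply] at h6
      exact h6.symm
    rw [h5] at h3
    exact r2.fn' h1 h3)
  have htr : t ≤ r2 := by
    rw [le_def, ht]
    exact Set.subset_union_left
  have htr' : t ≤ mv τ r2 := by
    rw [le_def, ht]
    exact Set.subset_union_right
  have htq : t ≤ q := htr.trans (hr2q.trans hq1)
  have hτB : Feq (act (acH τ) B) B t := hBE τ hτE' t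
  have hτx : Feq (act (acH τ) x) x t := (hS.mono hSE) τ hτE' t
  have hσxB : Fmem (act (acH σ) x) B r2 := by
    have h1 : Fmem (act (acH σ) x) (act (acH σ) B) (mv σ q) := fmem_act' (e := acH σ) hxB
    exact fmem_congr (Feq.refl _ _) hr2B (h1.mono (hr2q'.trans (mv_le hq1)))
  have h2 : Feq (act (acH σ) x) (act (acH τ) (act (acH σ) x)) t := by
    refine feq_of_two hF (htq.trans (hq.trans hp)) hB hx (sy.hs_act hx σ)
      (sy.hs_act (sy.hs_act hx σ) τ) (hBF.mono (htq.trans hq)) (hxB.mono htq) (hσxB.mono htr)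
      ?_ (hr2x.mono htr).symm ?_
    · have h3 : Fmem (act (acH τ) (act (acH σ) x)) (act (acH τ) B) (mv τ r2) :=
        fmem_act' (e := acH τ) hσxB
      exact fmem_congr (Feq.refl _ _) hτB (h3.mono htr')
    · have h3 : NF (act (acH τ) (act (acH σ) x)) (act (acH τ) x) (mv τ r2) := NF.act hr2x τ
      exact ((h3.mono htr').symm.congr hτx)
  -- restrict to the two copies
  obtain ⟨E2, hE2⟩ : ∃ E2 : Submodule K V, E2 = E1.map τ.toLinearMap := ⟨_, rfl⟩
  have hE2f : Module.Finite K E2 := by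
    rw [hE2]
    infer_instance
  have h3 : Feq (act (acH σ) x) (act (acH τ) (act (acH σ) x)) (rs (E1 ⊔ E2) t) :=
    restr_feq (hσx.mono le_sup_left) ((hE2 ▸ hσx.act τ : Sp E2 _).mono le_sup_right) h2
  have hC1 : ∀ a ∈ E1 ⊔ E2, a ∈ E ⊔ E1 → a ∈ E1 := by
    intro a ha ha'
    obtain ⟨e1, he1, e2, he2, rfl⟩ := Submodule.mem_sup.1 ha
    rw [hE2] at he2
    obtain ⟨c, hc, rfl⟩ := he2
    have h4 : τ c ∈ E ⊔ E1 := by
      have h5 := (E ⊔ E1).sub_mem ha' (hEE1 he1)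
      rwa [add_sub_cancel_left] at h5
    have h5 : τ c = c := hτ c (hτE c (hEE1 hc) h4)
    have h6 : e1 + τ c ∈ E1 := by
      rw [h5]
      exact E1.add_mem he1 hc
    exact h6
  have hC2 : ∀ c ∈ E ⊔ E1, τ c ∈ E1 ⊔ E2 → c ∈ E1 := by
    intro c hc hc'
    obtain ⟨e1, he1, e2, he2, h4⟩ := Submodule.mem_sup.1 hc'
    rw [hE2] at he2
    obtain ⟨c', hc1, rfl⟩ := he2
    have h5 : τ (c - c') = e1 := by
      rw [map_sub, ← h4]
      exact add_sub_cancel_right _ _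
    have h6 : c - c' ∈ E := by
      refine hτE _ ((E ⊔ E1).sub_mem hc (hEE1 hc1)) ?_
      rw [h5]
      exact hEE1 he1
    rw [hτ _ h6] at h5
    have h7 : c = e1 + c' := by rw [← h5, sub_add_cancel]
    rw [h7]
    exact E1.add_mem he1 hc1
  -- the independent copy
  obtain ⟨b, hb⟩ : ∃ b, b = mv σ⁻¹ (rs E1 r2) := ⟨_, rfl⟩
  have hbq1 : b ≤ q1 := by
    rintro ⟨a, y⟩ h
    rw [hb]
    have h4 := hr2q' (mem_mv'.2 h)
    have h5 : (σ a, y) ∈ (rs E1 r2).s := mem_rs.2 ⟨h4, hmE1 a (hq1E a y h)⟩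
    exact h5
  have hσb : mv σ b = rs E1 r2 := by
    rw [hb, mv_inv']
  have hbE : ∀ a y, (a, y) ∈ b.s → a ∈ E := by
    intro a y h
    have h4 : (σ a, y) ∈ (rs E1 r2).s := by
      rw [← hσb]
      exact mem_mv'.2 h
    obtain ⟨c, hc, h5⟩ := hmE1' _ h4.2
    rwa [← σ.injective h5]
  obtain ⟨ρ, hρ⟩ : ∃ ρ : G, ρ = σ⁻¹ * (τ * σ) := ⟨_, rfl⟩
  have hP1 : ∀ s, s ≤ b → s ≤ mv ρ b → Feq x (act (acH ρ) x) s := by
    intro s hs hs'
    have h4 : mv σ s ≤ rs E1 r2 := by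
      rw [← hσb]
      exact mv_le hs
    have h5 : mv σ s ≤ mv τ (rs E1 r2) := by
      rw [← hσb]
      have h6 := mv_le (g := σ) hs'
      rw [hρ, ← mv_mul, mul_inv_cancel_left] at h6
      exact h6
    have h6 : mv σ s ≤ rs (E1 ⊔ E2) t := by
      rintro ⟨a, y⟩ ⟨h7, h8⟩
      rw [ht] at h7
      rcases h7 with h7 | h7
      · exact h4 (mem_rs.2 ⟨h7, hC1 a h8 (hr2E a y h7)⟩)
      · have h9 : (τ.symm a, y) ∈ r2.s := h7
        have h10 : τ.symm a ∈ E1 := by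
          refine hC2 _ (hr2E _ y h9) ?_
          rw [LinearEquiv.apply_symm_apply]
          exact h8
        refine h5 ?_
        have h11 : (τ.symm a, y) ∈ (rs E1 r2).s := mem_rs.2 ⟨h9, h10⟩
        exact h11
    have h7 := h3.mono h6
    have h8 : Feq (act (acH σ⁻¹) (act (acH σ) x))
        (act (acH σ⁻¹) (act (acH τ) (act (acH σ) x))) (mv σ⁻¹ (mv σ s)) :=
      feq_act' (e := acH σ⁻¹) h7
    rw [acH_inv, mv_inv, ← acH_mul, ← acH_mul, mul_assoc, ← hρ] at h8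
    exact h8
  have hρU : ∀ u ∈ E, u ∈ E1 → ρ u = u := by
    intro u hu hu1
    rw [hρ]
    change σ.symm (τ (σ u)) = u
    rw [hU u hu hu1, hτ u hu, LinearEquiv.symm_apply_eq, hU u hu hu1]
  have hρE : ∀ s ∈ E, ρ s ∈ E → s ∈ E1 := by
    intro s hs hρs
    have h4 : τ (σ s) ∈ E1 := by
      have h5 := hmE1 _ hρs
      have h6 : σ (ρ s) = τ (σ s) := by
        rw [hρ]
        exact LinearEquiv.apply_symm_apply σ _
      rwa [h6] at h5
    have h5 : σ s ∈ E := hτE _ (hEE1 (hmE1 s hs)) (hEE1 h4)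
    have h6 := hmE1 s hs
    rwa [hid s hs h5] at h6
  -- restrict to the support
  obtain ⟨u, hu⟩ := exists_un (p := b) (q := mv ρ b) (by
    intro a n b1 b' h4 h5
    have h6 : (ρ.symm a, n, b') ∈ b.s := h5
    have h7 : ρ (ρ.symm a) ∈ E := by
      rw [LinearEquiv.apply_symm_apply]
      exact hbE _ _ h4
    have h8 := hρU _ (hbE _ _ h6) (hρE _ (hbE _ _ h6) h7)
    rw [LinearEquiv.apply_symm_apply] at h8
    rw [← h8] at h6
    exact b.fn' h4 h6)
  have hub : u ≤ b := by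
    rw [le_def, hu]
    exact Set.subset_union_left
  have hub' : u ≤ mv ρ b := by
    rw [le_def, hu]
    exact Set.subset_union_right
  have hP2 : ∀ s, s ≤ rs S b → s ≤ mv ρ (rs S b) → Feq x (act (acH ρ) x) s := by
    intro s hs hs'
    have h4 : Feq x (act (acH ρ) x) (rs (S ⊔ S.map ρ.toLinearMap) u) :=
      restr_feq (hS.mono le_sup_left) ((hS.act ρ).mono le_sup_right) (hP1 u hub hub')
    refine h4.mono ?_
    rintro ⟨a, y⟩ ⟨h5, h6⟩
    obtain ⟨s1, hs1, s2, hs2, h7⟩ := Submodule.mem_sup.1 h6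
    obtain ⟨c, hc, rfl⟩ := hs2
    simp only at h7
    rw [hu] at h5
    rcases h5 with h5 | h5
    · refine hs (mem_rs.2 ⟨h5, ?_⟩)
      have h8 : ρ c ∈ E := by
        have h9 := E.sub_mem (hbE a y h5) (hSE hs1)
        rw [← h7] at h9
        have h10 : s1 + ρ c - s1 = ρ c := add_sub_cancel_left _ _
        rwa [← h10]
      have h9 := hρU c (hSE hc) (hρE c (hSE hc) h8)
      have h10 : a = s1 + c := by
        rw [← h7]
        exact congrArg (s1 + ·) h9
      simp only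
      rw [h10]
      exact S.add_mem hs1 hc
    · have h8 : (ρ.symm a, y) ∈ b.s := h5
      have h9 : ρ (ρ.symm a - c) = s1 := by
        rw [map_sub, LinearEquiv.apply_symm_apply, ← h7]
        exact add_sub_cancel_right _ _
      have h10 : ρ.symm a - c ∈ E := E.sub_mem (hbE _ y h8) (hSE hc)
      have h11 := hρU _ h10 (hρE _ h10 (by rw [h9]; exact hSE hs1))
      have h12 : ρ.symm a = s1 + c := by
        rw [← h9, h11, sub_add_cancel]
      refine hs' ?_
      have h13 : (ρ.symm a, y) ∈ (rs S b).s := mem_rs.2 ⟨h8, by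
        simp only
        rw [h12]
        exact S.add_mem hs1 hc⟩
      exact h13
  -- the name with the smaller support
  have hρT : ρ ∈ fx T := by
    intro s hs
    rw [hT] at hs
    exact hρU s (hSE hs.1) hs.2
  have hρS : ∀ s ∈ S, ρ s ∈ S → s ∈ T := by
    intro s hs hρs
    rw [hT]
    exact ⟨hs, hρE s (hSE hs) (hSE hρs)⟩
  have hall := all_copies hTS hS (bS := rs S b) (fun a y h => h.2) hρT hρS hP2
  have hbS : b ≤ rs S b := le_rs S b
  refine ⟨b, hbq1.trans hq1, xp x T (rs S b), T, hTf, hWT, lt_of_le_of_ne hTS hTne,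
    hs_xp (hT := hTf) hx, sp_xp, ?_⟩
  exact fmem_congr (feq_xp hall hbS).symm (Feq.refl _ _) (hxB.mono (hbq1.trans hq1))

/-- The key lemma. -/
theorem key {F B : PName Cd} {W : Submodule K V} [Module.Finite K W] {p0 p : Cd}
    (hF : Two F p0) (hB : sy.HS B) (hp : p ≤ p0) (hBF : Fmem B F p) {q : Cd} (hq : q ≤ p)
    {x : PName Cd} (hx : sy.HS x) (hxB : Fmem x B q) :
    ∃ q' ≤ q, ∃ x', sy.HS x' ∧ Fmem x' B q' ∧ Good W q' B x' := by
  have main : ∀ n : ℕ, ∀ (S : Submodule K V) (q : Cd) (x : PName Cd), Module.Finite K S →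
      Module.finrank K S = n → q ≤ p → sy.HS x → Fmem x B q → W ≤ S → Sp S x →
      ∃ q' ≤ q, ∃ x', sy.HS x' ∧ Fmem x' B q' ∧ Good W q' B x' := by
    intro n
    induction n using Nat.strong_induction_on with
    | _ n ih =>
      intro S q x hSf hn hq hx hxB hWS hS
      by_cases hg : ∃ q' ≤ q, Good W q' B x
      · obtain ⟨q', hq', h1⟩ := hg
        exact ⟨q', hq', x, hx, hxB.mono hq', h1⟩
      · obtain ⟨b, hb, x', T, hTf, hWT, hTS, hx', hT, hxB'⟩ :=
          key_step hF hB hx hp hBF hq hxB hWS hS fun q' hq' h1 => hg ⟨q', hq', h1⟩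
        obtain ⟨q', hq', h1⟩ := ih (Module.finrank K T) (by
          rw [← hn]
          exact Submodule.finrank_lt_finrank_of_lt hTS) T b x' hTf rfl (hb.trans hq) hx' hxB'
          hWT hT
        exact ⟨q', hq'.trans hb, h1⟩
  obtain ⟨S, hSf, hS⟩ := hs_supp hx
  exact main _ (S ⊔ W) q x inferInstance rfl hq hx hxB le_sup_right (hS.mono le_sup_left)

end Pool.Agent.R598.LX
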