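import Mathlib

/-!
# The vector space over the field with two elements of countable dimension
-/

set_option autoImplicit false

namespace Pool.Agent.R598.LX

/-- The field with two elements. -/
abbrev K : Type := ZMod 2

/-- The vector space of countable dimension. -/
abbrev V : Type := ℕ →₀ K

theorem rank_V : Module.rank K V = Cardinal.aleph0 := by
  rw [rank_finsupp_self, Cardinal.mk_nat, Cardinal.lift_aleph0]

theorem rank_quot (A : Submodule K V) [Module.Finite K A] :
    Module.rank K (V ⧸ A) = Cardinal.aleph0 := by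
  have h1 := Submodule.rank_quotient_add_rank A
  rw [rank_V, add_comm] at h1
  exact Cardinal.eq_of_add_eq_of_aleph0_le h1 (Module.rank_lt_aleph0 K A) le_rfl

/-- Isomorphisms between finite-dimensional subspaces have extensions. -/
theorem exists_ext {A B : Submodule K V} [Module.Finite K A] [Module.Finite K B] (e : A ≃ₗ[K] B) :
    ∃ g : V ≃ₗ[K] V, ∀ a : A, g a = e a := by
  obtain ⟨A', hA⟩ := A.exists_isCompl
  obtain ⟨B', hB⟩ := B.exists_isCompl
  have h1 : Module.rank K A' = Module.rank K B' := by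
    rw [← (Submodule.quotientEquivOfIsCompl A A' hA).rank_eq,
      ← (Submodule.quotientEquivOfIsCompl B B' hB).rank_eq, rank_quot, rank_quot]
  obtain ⟨e'⟩ := nonempty_linearEquiv_of_rank_eq h1
  refine ⟨(Submodule.prodEquivOfIsCompl A A' hA).symm.trans
    ((e.prodCongr e').trans (Submodule.prodEquivOfIsCompl B B' hB)), fun a => ?_⟩
  simp

/-- Injective linear maps from finite-dimensional subspaces have extensions. -/
theorem exists_ext_inj {A : Submodule K V} [Module.Finite K A] (f : A →ₗ[K] V)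
    (hf : Function.Injective f) : ∃ g : V ≃ₗ[K] V, ∀ a : A, g a = f a := by
  obtain ⟨g, hg⟩ := exists_ext (LinearEquiv.ofInjective f hf)
  exact ⟨g, fun a => hg a⟩

theorem finite_sub (A : Submodule K V) [Module.Finite K A] : (A : Set V).Finite := by
  have : Finite A := Module.finite_of_finite K
  exact Set.toFinite _

/-- The shift. -/
noncomputable def sh (n : ℕ) : V →ₗ[K] V := Finsupp.lmapDomain K K fun i => i + n

theorem sh_apply_lt (n : ℕ) (x : V) {i : ℕ} (hi : i < n) : sh n x i = 0 := by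
  unfold sh
  rw [Finsupp.lmapDomain_apply]
  refine Finsupp.mapDomain_of_notMem_range _ _ ?_
  rintro ⟨j, hj⟩
  simp only at hj
  omega

theorem sh_inj (n : ℕ) : Function.Injective (sh n) := by
  unfold sh
  exact Finsupp.mapDomain_injective fun i j h => by simpa using h

/-- Moving a subspace away from itself. -/
theorem exists_fresh {W E : Submodule K V} [Module.Finite K E] (h : W ≤ E) :
    ∃ g : V ≃ₗ[K] V, (∀ w ∈ W, g w = w) ∧ ∀ x ∈ E, g x ∈ E → x ∈ W := by
  obtain ⟨N, hN⟩ : ∃ N : ℕ, ∀ x ∈ E, ∀ i, N ≤ i → x i = 0 := by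
    obtain ⟨N, hN⟩ := ((finite_sub E).image fun x : V => x.support.sup id).bddAbove
    refine ⟨N + 1, fun x hx i hi => ?_⟩
    by_contra hc
    have h1 : i ≤ x.support.sup id :=
      Finset.le_sup (f := id) (Finsupp.mem_support_iff.2 hc)
    have h2 := hN ⟨x, hx, rfl⟩
    simp only at h2
    omega
  obtain ⟨C, hC⟩ := W.exists_isCompl
  have hC' : IsCompl C W := hC.symm
  let p : V →ₗ[K] V := C.subtype ∘ₗ Submodule.projectionOnto C W hC'
  have hp : ∀ x, p x = 0 → x ∈ W := by
    intro x hx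
    have h1 : Submodule.projectionOnto C W hC' x = 0 := Subtype.ext hx
    exact (Submodule.projectionOnto_apply_eq_zero_iff hC').1 h1
  have hp' : ∀ x ∈ W, p x = 0 := by
    intro x hx
    have h1 := (Submodule.projectionOnto_apply_eq_zero_iff hC').2 hx
    change ((Submodule.projectionOnto C W hC' x : C) : V) = 0
    rw [h1]
    rfl
  let f : V →ₗ[K] V := LinearMap.id + (sh N) ∘ₗ p
  have hf : ∀ x, f x = x + sh N (p x) := fun x => rfl
  have hfE : ∀ x ∈ E, f x ∈ E → x ∈ W := by
    intro x hx hfx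
    refine hp x (sh_inj N ?_)
    rw [map_zero]
    have h1 : sh N (p x) ∈ E := by
      have h2 := E.sub_mem hfx hx
      rwa [hf, add_sub_cancel_left] at h2
    ext i
    rcases lt_or_ge i N with hi | hi
    · rw [sh_apply_lt N _ hi]
      rfl
    · rw [hN _ h1 i hi]
      rfl
  have hfW : ∀ x ∈ W, f x = x := by
    intro x hx
    rw [hf, hp' x hx, map_zero, add_zero]
  obtain ⟨g, hg⟩ := exists_ext_inj (f.domRestrict E) (by
    rw [injective_iff_map_eq_zero]
    rintro ⟨x, hx⟩ h1
    have h2 : f x = 0 := h1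
    have h3 : x ∈ W := hfE x hx (by rw [h2]; exact E.zero_mem)
    rw [hfW x h3] at h2
    exact Subtype.ext h2)
  have hg' : ∀ x ∈ E, g x = f x := fun x hx => hg ⟨x, hx⟩
  refine ⟨g, fun w hw => ?_, fun x hx hgx => ?_⟩
  · rw [hg' w (h hw), hfW w hw]
  · rw [hg' x hx] at hgx
    exact hfE x hx hgx

/-- Linear maps with the same kernel from a finite-dimensional space. -/
theorem exists_of_ker {D : Type} [AddCommGroup D] [Module K D] [Module.Finite K D]
    (f f' : D →ₗ[K] V) (h : ∀ x, f x = 0 ↔ f' x = 0) : ∃ θ : V ≃ₗ[K] V, ∀ x, θ (f x) = f' x := by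
  have : Module.Free K (LinearMap.range f) := Module.Free.of_divisionRing K _
  obtain ⟨s, hs⟩ := f.rangeRestrict.exists_rightInverse_of_surjective f.range_rangeRestrict
  have hs' : ∀ y : LinearMap.range f, f (s y) = y := by
    intro y
    have h1 : f.rangeRestrict (s y) = y := by
      have h2 := LinearMap.congr_fun hs y
      exact h2
    exact congrArg Subtype.val h1
  obtain ⟨θ, hθ⟩ := exists_ext_inj (A := LinearMap.range f) (f' ∘ₗ s) (by
    rw [injective_iff_map_eq_zero]
    intro y hy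
    have h1 : f' (s y) = 0 := hy
    have h2 := (h _).2 h1
    rw [hs'] at h2
    exact Subtype.ext h2)
  refine ⟨θ, fun x => ?_⟩
  have h1 : θ (f x) = f' (s ⟨f x, x, rfl⟩) := hθ ⟨f x, x, rfl⟩
  rw [h1, ← sub_eq_zero, ← map_sub]
  refine (h _).1 ?_
  rw [map_sub, hs', sub_self]

/-- Homogeneity. -/
theorem exists_hom {S T : Submodule K V} [Module.Finite K S] {ρ π : V ≃ₗ[K] V}
    (h1 : ∀ t ∈ T, ρ t = t) (h2 : ∀ t ∈ T, π t = t) (h3 : ∀ s ∈ S, ρ s ∈ S → s ∈ T)
    (h4 : ∀ s ∈ S, π s ∈ S → s ∈ T) :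
    ∃ θ : V ≃ₗ[K] V, (∀ s ∈ S, θ s = s) ∧ ∀ s ∈ S, θ (ρ s) = π s := by
  have key : ∀ (μ ν : V ≃ₗ[K] V), (∀ t ∈ T, μ t = t) → (∀ t ∈ T, ν t = t) →
      (∀ s ∈ S, μ s ∈ S → s ∈ T) → ∀ a b : S, (a : V) + μ b = 0 → (a : V) + ν b = 0 := by
    intro μ ν h5 h6 h7 a b h8
    have h9 : μ b ∈ S := by
      have h10 : μ b = -(a : V) := eq_neg_of_add_eq_zero_right h8
      rw [h10]
      exact S.neg_mem a.2
    have h10 := h7 b b.2 h9
    rw [h5 b h10] at h8
    rw [h6 b h10, h8]
  obtain ⟨θ, hθ⟩ := exists_of_ker (D := S × S)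
    (LinearMap.coprod S.subtype (ρ.toLinearMap ∘ₗ S.subtype))
    (LinearMap.coprod S.subtype (π.toLinearMap ∘ₗ S.subtype)) fun x =>
      ⟨key ρ π h1 h2 h3 x.1 x.2, key π ρ h2 h1 h4 x.1 x.2⟩
  have h5 : ∀ a b : S, θ ((a : V) + ρ b) = a + π b := fun a b => hθ (a, b)
  refine ⟨θ, fun s hs => ?_, fun s hs => ?_⟩
  · have h6 := h5 ⟨s, hs⟩ 0
    rw [ZeroMemClass.coe_zero, map_zero, map_zero, add_zero] at h6
    exact h6
  · have h6 := h5 0 ⟨s, hs⟩
    rw [ZeroMemClass.coe_zero, zero_add, zero_add] at h6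
    exact h6

end Pool.Agent.R598.LX
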