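import Pool.Agent.R598.LX.Graph
import Pool.Agent.R598.LX.Ac2

/-!
# The failure of the compactness principle for `3LIN_2`
-/

set_option autoImplicit false

namespace Pool.Agent.R598.LX

open Pool.Agent.W868 Pool.Agent.W868.PName Pool.Agent.R598.SY Pool.Agent.R598.PM
open ZFSet (pair)

/-- A condition with a single value. -/
def sg (a : V) (n : ℕ) (b : Bool) : Cd where
  s := {(a, n, b)}
  fin := Set.finite_singleton _
  fn := by
    intro c m h h'
    rw [Set.mem_singleton_iff] at h h'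
    cases b <;> simp_all

/-- The name for the Cohen real `a`. -/
noncomputable def xN (a : V) : PName Cd :=
  PName.mk ℕ (fun n => check (nat n)) (fun n => sg a n true)

theorem el_xN {a : V} {z : PName Cd} {c : Cd} :
    El (xN a) z c ↔ ∃ n, z = check (nat n) ∧ c = sg a n true := by
  rw [xN, el_mk]
  constructor
  · rintro ⟨n, rfl, rfl⟩
    exact ⟨n, rfl, rfl⟩
  · rintro ⟨n, rfl, rfl⟩
    exact ⟨n, rfl, rfl⟩

theorem mv_sg (g : G) (a : V) (n : ℕ) (b : Bool) : mv g (sg a n b) = sg (g a) n b := by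
  refine Cd.ext' (Set.ext fun x => ?_)
  obtain ⟨c, m, d⟩ := x
  rw [mem_mv]
  change (g.symm c, m, d) = (a, n, b) ↔ (c, m, d) = (g a, n, b)
  constructor
  · intro h
    obtain ⟨h1, h2⟩ := Prod.mk.inj h
    rw [← h1, LinearEquiv.apply_symm_apply, h2]
  · intro h
    obtain ⟨h1, h2⟩ := Prod.mk.inj h
    rw [h1, LinearEquiv.symm_apply_apply, h2]

theorem act_xN (g : G) (a : V) : act (acH g) (xN a) = xN (g a) := by
  unfold xN act
  congr 1
  · funext n
    exact act_check (acH_top g) _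
  · funext n
    exact mv_sg _ _ _ _

theorem sp_xN {W : Submodule K V} {a : V} (ha : a ∈ W) : Sp W (xN a) := by
  intro g hg p
  rw [act_xN, hg a ha]
  exact Feq.refl _ _

theorem hs_xN (a : V) : sy.HS (xN a) := by
  refine sy.hs_iff.2 ⟨⟨_, ⟨Submodule.span K {a}, inferInstance, rfl⟩,
    sp_xN (Submodule.mem_span_singleton_self a)⟩, fun z c hz => ?_⟩
  obtain ⟨n, rfl, rfl⟩ := el_xN.1 hz
  exact sy.hs_check _

theorem not_feq_xN {a b : V} (hab : a ≠ b) (p : Cd) : ¬ Feq (xN a) (xN b) p := by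
  intro h
  obtain ⟨n, hn⟩ := (p.fin.image fun x : V × ℕ × Bool => x.2.1).exists_notMem
  have hn' : ∀ c v, (c, n, v) ∉ p.s := fun c v h => hn ⟨_, h, rfl⟩
  obtain ⟨q0, hq0⟩ := exists_un (p := p) (q := sg a n true) (by
    intro c m v v' h1 h2
    obtain ⟨rfl, h3⟩ := Prod.mk.inj (show (c, m, v') = (a, n, true) from h2)
    obtain ⟨rfl, rfl⟩ := Prod.mk.inj h3
    exact absurd h1 (hn' _ _))
  obtain ⟨q, hq⟩ := exists_un (p := q0) (q := sg b n false) (by
    intro c m v v' h1 h2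
    obtain ⟨rfl, h3⟩ := Prod.mk.inj (show (c, m, v') = (b, n, false) from h2)
    obtain ⟨rfl, rfl⟩ := Prod.mk.inj h3
    rw [hq0] at h1
    rcases h1 with h1 | h1
    · exact absurd h1 (hn' _ _)
    · exact absurd (Prod.mk.inj (show (c, m, v) = (a, m, true) from h1)).1 (Ne.symm hab))
  have hqp : q ≤ p := fun x hx => by
    rw [hq, hq0]
    exact Or.inl (Or.inl hx)
  have hq1 : q ≤ sg a n true := fun x hx => by
    rw [hq, hq0]
    exact Or.inl (Or.inr hx)
  have hq2 : (b, n, false) ∈ q.s := by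
    rw [hq]
    exact Or.inr rfl
  obtain ⟨s, hs, w, d, hw, hd, he⟩ := (feq_iff'.1 h).1 (check (nat n)) (sg a n true)
    (el_xN.2 ⟨n, rfl, rfl⟩) q hqp hq1
  obtain ⟨m, rfl, rfl⟩ := el_xN.1 hw
  rw [feq_check] at he
  have hm := nat_injective he
  subst hm
  have h1 : (b, n, true) ∈ s.s := hd rfl
  exact s.fn _ _ h1 (hs hq2)

/-- The distinguished vector. -/
noncomputable def v0 : V := Finsupp.single 0 1

/-- The name for the set of the Cohen reals. -/
noncomputable def AN : PName Cd := PName.mk V xN (fun _ => ⊤)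

/-- The name for the first relation. -/
noncomputable def R0N : PName Cd :=
  PName.mk (V × V) (fun t => opN (xN t.1) (opN (xN t.2) (xN (t.1 + t.2)))) (fun _ => ⊤)

/-- The name for the second relation. -/
noncomputable def R1N : PName Cd :=
  PName.mk Unit (fun _ => opN (xN v0) (opN (xN v0) (xN v0))) (fun _ => ⊤)

theorem el_AN {z : PName Cd} {c : Cd} : El AN z c ↔ ∃ a, z = xN a ∧ c = ⊤ := by
  rw [AN, el_mk]
  constructor
  · rintro ⟨n, rfl, rfl⟩
    exact ⟨n, rfl, rfl⟩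
  · rintro ⟨n, rfl, rfl⟩
    exact ⟨n, rfl, rfl⟩

theorem el_R0N {z : PName Cd} {c : Cd} :
    El R0N z c ↔ ∃ a b, z = opN (xN a) (opN (xN b) (xN (a + b))) ∧ c = ⊤ := by
  rw [R0N, el_mk]
  constructor
  · rintro ⟨⟨a, b⟩, rfl, rfl⟩
    exact ⟨a, b, rfl, rfl⟩
  · rintro ⟨a, b, rfl, rfl⟩
    exact ⟨(a, b), rfl, rfl⟩

theorem el_R1N {z : PName Cd} {c : Cd} :
    El R1N z c ↔ z = opN (xN v0) (opN (xN v0) (xN v0)) ∧ c = ⊤ := by
  rw [R1N, el_mk]
  constructor
  · rintro ⟨_, rfl, rfl⟩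
    exact ⟨rfl, rfl⟩
  · rintro ⟨rfl, rfl⟩
    exact ⟨(), rfl, rfl⟩

theorem act_op3 (g : G) (a b c : V) : act (acH g) (opN (xN a) (opN (xN b) (xN c))) =
    opN (xN (g a)) (opN (xN (g b)) (xN (g c))) := by
  rw [act_opN (acH_top g), act_opN (acH_top g), act_xN, act_xN, act_xN]

theorem hs_AN : sy.HS AN := by
  have key : ∀ (g : G) z c, El AN z c → El AN (act (acH g) z) (mv g c) := by
    intro g z c h
    obtain ⟨a, rfl, rfl⟩ := el_AN.1 h
    exact el_AN.2 ⟨g a, act_xN g a, acH_top g⟩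
  refine sy.hs_iff.2 ⟨⟨fx ⊥, ⟨⊥, inferInstance, rfl⟩, fun g _ p => feq_of_el fun z c => ?_⟩,
    fun z c hz => ?_⟩
  · rw [el_act]
    constructor
    · rintro ⟨z, c, h, rfl, rfl⟩
      exact key g z c h
    · intro h
      exact ⟨_, _, key g⁻¹ z c h, (acH_inv' g z).symm, (mv_inv' g c).symm⟩
  · obtain ⟨a, rfl, -⟩ := el_AN.1 hz
    exact hs_xN a

theorem hs_op3 (a b c : V) : sy.HS (opN (xN a) (opN (xN b) (xN c))) :=
  sy.hs_opN (hs_xN a) (sy.hs_opN (hs_xN b) (hs_xN c))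

theorem hs_R0N : sy.HS R0N := by
  have key : ∀ (g : G) z c, El R0N z c → El R0N (act (acH g) z) (mv g c) := by
    intro g z c h
    obtain ⟨a, b, rfl, rfl⟩ := el_R0N.1 h
    refine el_R0N.2 ⟨g a, g b, ?_, acH_top g⟩
    rw [act_op3, map_add]
  refine sy.hs_iff.2 ⟨⟨fx ⊥, ⟨⊥, inferInstance, rfl⟩, fun g _ p => feq_of_el fun z c => ?_⟩,
    fun z c hz => ?_⟩
  · rw [el_act]
    constructor
    · rintro ⟨z, c, h, rfl, rfl⟩
      exact key g z c h
    · intro h
      exact ⟨_, _, key g⁻¹ z c h, (acH_inv' g z).symm, (mv_inv' g c).symm⟩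
  · obtain ⟨a, b, rfl, -⟩ := el_R0N.1 hz
    exact hs_op3 _ _ _

theorem hs_R1N : sy.HS R1N := by
  have hv : v0 ∈ Submodule.span K {v0} := Submodule.mem_span_singleton_self v0
  have key : ∀ g ∈ fx (Submodule.span K {v0}), ∀ z c, El R1N z c →
      El R1N (act (acH g) z) (mv g c) := by
    intro g hg z c h
    obtain ⟨rfl, rfl⟩ := el_R1N.1 h
    refine el_R1N.2 ⟨?_, acH_top g⟩
    rw [act_op3, hg v0 hv]
  refine sy.hs_iff.2 ⟨⟨fx (Submodule.span K {v0}), ⟨Submodule.span K {v0}, inferInstance, rfl⟩,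
    fun g hg p => feq_of_el fun z c => ?_⟩, fun z c hz => ?_⟩
  · rw [el_act]
    constructor
    · rintro ⟨z, c, h, rfl, rfl⟩
      exact key g hg z c h
    · intro h
      exact ⟨_, _, key g⁻¹ ((fx _).inv_mem hg) z c h, (acH_inv' g z).symm, (mv_inv' g c).symm⟩
  · obtain ⟨rfl, -⟩ := el_R1N.1 hz
    exact hs_op3 _ _ _

theorem k_eq_one : ∀ c : K, c ≠ 0 → c = 1 := by
  decide

/-- Moving a vector. -/
theorem exists_move {W : Submodule K V} [Module.Finite K W] {x y : V} (hx : x ∉ W) (hy : y ∉ W) :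
    ∃ g ∈ fx W, g x = y := by
  have key : ∀ z : V, z ∉ W → ∀ (w : W) (c : K), (w : V) + c • z = 0 → c = 0 ∧ (w : V) = 0 := by
    intro z hz w c h
    have hc : c = 0 := by
      by_contra hc
      have h1 : c = 1 := k_eq_one c hc
      rw [h1, one_smul] at h
      have h2 : z = -(w : V) := eq_neg_of_add_eq_zero_right h
      exact hz (h2 ▸ W.neg_mem w.2)
    rw [hc, zero_smul, add_zero] at h
    exact ⟨hc, h⟩
  obtain ⟨θ, hθ⟩ := exists_of_ker (D := W × K)
    (LinearMap.coprod W.subtype (LinearMap.toSpanSingleton K V x))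
    (LinearMap.coprod W.subtype (LinearMap.toSpanSingleton K V y)) fun t => by
      have h1 : (LinearMap.coprod W.subtype (LinearMap.toSpanSingleton K V x)) t =
        (t.1 : V) + t.2 • x := rfl
      have h2 : (LinearMap.coprod W.subtype (LinearMap.toSpanSingleton K V y)) t =
        (t.1 : V) + t.2 • y := rfl
      rw [h1, h2]
      constructor
      · intro h
        obtain ⟨h3, h4⟩ := key x hx t.1 t.2 h
        rw [h3, h4, zero_smul, add_zero]
      · intro h
        obtain ⟨h3, h4⟩ := key y hy t.1 t.2 h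
        rw [h3, h4, zero_smul, add_zero]
  have hθ' : ∀ (w : W) (c : K), θ ((w : V) + c • x) = (w : V) + c • y := fun w c => hθ (w, c)
  refine ⟨θ, fun w hw => ?_, ?_⟩
  · have h := hθ' ⟨w, hw⟩ 0
    rwa [zero_smul, zero_smul, add_zero] at h
  · have h := hθ' 0 1
    rwa [one_smul, one_smul, ZeroMemClass.coe_zero, zero_add, zero_add] at h

theorem exists_notMem (E : Submodule K V) [Module.Finite K E] : ∃ x, x ∉ E := by
  obtain ⟨x, hx⟩ := (finite_sub E).exists_notMem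
  exact ⟨x, hx⟩

/-- The set of the conditions for two copies. -/
def Dm (s : Finset V) (q : Cd) (x z : V) : Set Cd :=
  {r | ∃ y, ∃ g ∈ fx (Submodule.span K (s : Set V)), ∃ k ∈ fx (Submodule.span K (s : Set V)),
    g x = y ∧ k x = x + y + z ∧ r ≤ mv g q ∧ r ≤ mv k q}

theorem mem_sup_sing {W : Submodule K V} {x a : V} (h : a ∈ W ⊔ Submodule.span K {x}) :
    a ∈ W ∨ ∃ w ∈ W, a = w + x := by
  obtain ⟨w, hw, z, hz, rfl⟩ := Submodule.mem_sup.1 h
  obtain ⟨c, rfl⟩ := Submodule.mem_span_singleton.1 hz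
  by_cases hc : c = 0
  · rw [hc, zero_smul, add_zero]
    exact Or.inl hw
  · have h1 : c = 1 := k_eq_one c hc
    rw [h1, one_smul]
    exact Or.inr ⟨w, hw, rfl⟩

set_option maxHeartbeats 2000000 in
theorem dense_Dm {s : Finset V} {q p : Cd} {x z : V} (hx : x ∉ Submodule.span K (s : Set V))
    (hz : z ∈ Submodule.span K (s : Set V))
    (hq : ∀ a y, (a, y) ∈ q.s → a ∈ Submodule.span K (s : Set V) ⊔ Submodule.span K {x})
    (hp : p ≤ q) : ∃ r ≤ p, r ∈ Dm s q x z := by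
  obtain ⟨W, hW⟩ : ∃ W : Submodule K V, W = Submodule.span K (s : Set V) := ⟨_, rfl⟩
  have hWf : Module.Finite K W := by
    rw [hW]
    exact Module.Finite.span_finset K s
  unfold Dm
  rw [← hW] at hx hz hq ⊢
  obtain ⟨y, hy⟩ := exists_notMem ((W ⊔ Submodule.span K {x}) ⊔ dm p)
  have hWE : W ≤ (W ⊔ Submodule.span K {x}) ⊔ dm p := le_sup_left.trans le_sup_left
  have hxE : x ∈ (W ⊔ Submodule.span K {x}) ⊔ dm p :=
    (le_sup_right.trans le_sup_left : Submodule.span K {x} ≤ _)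
      (Submodule.mem_span_singleton_self x)
  have hpE : dm p ≤ (W ⊔ Submodule.span K {x}) ⊔ dm p := le_sup_right
  obtain ⟨E, hE⟩ : ∃ E : Submodule K V, E = (W ⊔ Submodule.span K {x}) ⊔ dm p := ⟨_, rfl⟩
  rw [← hE] at hy hWE hxE hpE
  have hyW : y ∉ W := fun h => hy (hWE h)
  have hxy : x + y + z ∉ W := by
    intro h
    refine hy ?_
    have h1 : y = (x + y + z) - (x + z) := by abel
    rw [h1]
    exact E.sub_mem (hWE h) (E.add_mem hxE (hWE hz))
  obtain ⟨g, hg, hgx⟩ := exists_move hx hyW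
  obtain ⟨k, hk, hkx⟩ := exists_move hx hxy
  -- the compatibility with `p`
  have key : ∀ (f : G) (u : V), f ∈ fx W → f x = u → (∀ w ∈ W, w + u ∉ E) →
      ∀ a n b b', (a, n, b) ∈ p.s → (f.symm a, n, b') ∈ q.s → b = b' := by
    intro f u hf hfx hu a n b b' h1 h2
    rcases mem_sup_sing (hq _ _ h2) with h3 | ⟨w, hw, h3⟩
    · have h4 := hf _ h3
      rw [LinearEquiv.apply_symm_apply] at h4
      rw [← h4] at h2
      exact p.fn' h1 (hp h2)
    · exfalso
      have h4 : a = w + u := by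
        have h5 := congrArg f h3
        rw [LinearEquiv.apply_symm_apply, map_add, hf w hw, hfx] at h5
        exact h5
      exact hu w hw (h4 ▸ hpE (mem_dm h1))
  have hyE : ∀ w ∈ W, w + y ∉ E := by
    intro w hw h
    refine hy ?_
    have h1 : y = (w + y) - w := by abel
    rw [h1]
    exact E.sub_mem h (hWE hw)
  have hxyE : ∀ w ∈ W, w + (x + y + z) ∉ E := by
    intro w hw h
    refine hy ?_
    have h1 : y = (w + (x + y + z)) - (w + (x + z)) := by abel
    rw [h1]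
    exact E.sub_mem h (E.add_mem (hWE hw) (E.add_mem hxE (hWE hz)))
  obtain ⟨r1, hr1⟩ := exists_un (p := p) (q := mv g q)
    (fun a n b b' h1 h2 => key g y hg hgx hyE a n b b' h1 h2)
  obtain ⟨r, hr⟩ := exists_un (p := r1) (q := mv k q) (by
    intro a n b b' h1 h2
    rw [hr1] at h1
    have h2' : (k.symm a, n, b') ∈ q.s := h2
    rcases h1 with h1 | h1
    · exact key k _ hk hkx hxyE a n b b' h1 h2
    · have h1' : (g.symm a, n, b) ∈ q.s := h1
      rcases mem_sup_sing (hq _ _ h1') with h3 | ⟨w, hw, h3⟩ <;>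
        rcases mem_sup_sing (hq _ _ h2') with h4 | ⟨w', hw', h4⟩
      · have h5 := hg _ h3
        have h6 := hk _ h4
        rw [LinearEquiv.apply_symm_apply] at h5 h6
        rw [← h5] at h1'
        rw [← h6] at h2'
        exact q.fn' h1' h2'
      · exfalso
        have h5 := hg _ h3
        rw [LinearEquiv.apply_symm_apply] at h5
        have h6 : a = w' + (x + y + z) := by
          have h7 := congrArg k h4
          rwa [LinearEquiv.apply_symm_apply, map_add, hk w' hw', hkx] at h7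
        refine hxyE w' hw' ?_
        rw [← h6, h5]
        exact hWE h3
      · exfalso
        have h5 := hk _ h4
        rw [LinearEquiv.apply_symm_apply] at h5
        have h6 : a = w + y := by
          have h7 := congrArg g h3
          rwa [LinearEquiv.apply_symm_apply, map_add, hg w hw, hgx] at h7
        refine hyE w hw ?_
        rw [← h6, h5]
        exact hWE h4
      · exfalso
        have h5 : a = w + y := by
          have h7 := congrArg g h3
          rwa [LinearEquiv.apply_symm_apply, map_add, hg w hw, hgx] at h7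
        have h6 : a = w' + (x + y + z) := by
          have h7 := congrArg k h4
          rwa [LinearEquiv.apply_symm_apply, map_add, hk w' hw', hkx] at h7
        refine hx ?_
        have h7 : x = w - w' - z := by
          have h8 : w + y = w' + (x + y + z) := h5.symm.trans h6
          have h9 : w - w' - z = (w + y) - (w' + (x + y + z)) + x := by abel
          rw [h9, h8, sub_self, zero_add]
        rw [h7]
        exact W.sub_mem (W.sub_mem hw hw') hz)
  refine ⟨r, ?_, y, g, hg, k, hk, hgx, hkx, ?_, ?_⟩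
  · intro a ha
    rw [hr, hr1]
    exact Or.inl (Or.inl ha)
  · intro a ha
    rw [hr, hr1]
    exact Or.inl (Or.inr ha)
  · intro a ha
    rw [hr]
    exact Or.inr ha

/-- The package contains the names. -/
structure Gx (π : Pkg Cd) : Prop where
  e : emp ∈ π.N
  x : ∀ a, xN a ∈ π.N
  o : ∀ a b c, opN (xN a) (opN (xN b) (xN c)) ∈ π.N
  A : AN ∈ π.N
  r0 : R0N ∈ π.N
  r1 : R1N ∈ π.N
  d : ∀ s q x z, Sys.nm Cd (Dm s q x z) ∈ π.N

section

variable {π : Pkg Cd} (g : Gx π)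

include g

theorem val_xN_inj {a b : V} (h : π.val (xN a) = π.val (xN b)) : a = b := by
  by_contra hab
  obtain ⟨n, hn⟩ := (π.val_eq_iff (g.x a) (g.x b)).1 h
  exact not_feq_xN hab _ hn

theorem mem_A {z : ZFSet.{0}} : z ∈ π.val AN ↔ ∃ a, z = π.val (xN a) := by
  rw [π.mem_val]
  constructor
  · rintro ⟨y, hy, c, hc, -, rfl⟩
    obtain ⟨a, rfl, -⟩ := el_AN.1 hc
    exact ⟨a, rfl⟩
  · rintro ⟨a, rfl⟩
    exact ⟨xN a, g.x a, ⊤, el_AN.2 ⟨a, rfl, rfl⟩, ⟨0, le_top⟩, rfl⟩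

theorem val_op3 (a b c : V) : π.val (opN (xN a) (opN (xN b) (xN c))) =
    pair (π.val (xN a)) (pair (π.val (xN b)) (π.val (xN c))) := by
  rw [π.val_opN (g.x a) (π.opN_mem (g.x b) (g.x c)), π.val_opN (g.x b) (g.x c)]

theorem mem_R0 {a b c : V} :
    pair (π.val (xN a)) (pair (π.val (xN b)) (π.val (xN c))) ∈ π.val R0N ↔ c = a + b := by
  rw [π.mem_val]
  constructor
  · rintro ⟨y, hy, d, hd, -, h⟩
    obtain ⟨a', b', rfl, -⟩ := el_R0N.1 hd
    rw [val_op3 g] at h
    obtain ⟨h1, h2⟩ := ZFSet.pair_inj.1 h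
    obtain ⟨h3, h4⟩ := ZFSet.pair_inj.1 h2
    rw [← val_xN_inj g h1, ← val_xN_inj g h3, val_xN_inj g h4]
  · rintro rfl
    exact ⟨_, g.o _ _ _, ⊤, el_R0N.2 ⟨a, b, rfl, rfl⟩, ⟨0, le_top⟩, val_op3 g _ _ _⟩

theorem mem_R1 {a b c : V} :
    pair (π.val (xN a)) (pair (π.val (xN b)) (π.val (xN c))) ∈ π.val R1N ↔
      a = v0 ∧ b = v0 ∧ c = v0 := by
  rw [π.mem_val]
  constructor
  · rintro ⟨y, hy, d, hd, -, h⟩
    obtain ⟨rfl, -⟩ := el_R1N.1 hd
    rw [val_op3 g] at h
    obtain ⟨h1, h2⟩ := ZFSet.pair_inj.1 h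
    obtain ⟨h3, h4⟩ := ZFSet.pair_inj.1 h2
    exact ⟨(val_xN_inj g h1).symm, (val_xN_inj g h3).symm, (val_xN_inj g h4).symm⟩
  · rintro ⟨rfl, rfl, rfl⟩
    exact ⟨_, g.o _ _ _, ⊤, el_R1N.2 ⟨rfl, rfl⟩, ⟨0, le_top⟩, val_op3 g _ _ _⟩

/-- The finite systems have solutions. -/
theorem fin_sol (hM : IsZF (sy.Ms π)) {Z : ZFSet.{0}} (hZM : Z ∈ sy.Ms π)
    (hZ : Z ⊆ π.val AN) (hZf : FinIn (sy.Ms π) Z) :
    ∃ h ∈ sy.Ms π, Sol (π.val R0N) (π.val R1N) Z h := by
  let l : V → ℕ := fun x => (x 0).val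
  have hl2 : ∀ x, l x < 2 := fun x => ZMod.val_lt _
  let h : ZFSet.{0} := ZFSet.sep (fun w => ∃ x : V, w = pair (π.val (xN x)) (nat (l x)))
    (ZFSet.prod Z (nat 2))
  have hmem : ∀ a i, pair a i ∈ h ↔ a ∈ Z ∧ ∃ x : V, a = π.val (xN x) ∧ i = nat (l x) := by
    intro a i
    rw [ZFSet.mem_sep, ZFSet.pair_mem_prod]
    constructor
    · rintro ⟨⟨h1, -⟩, x, h2⟩
      obtain ⟨rfl, rfl⟩ := ZFSet.pair_inj.1 h2
      exact ⟨h1, x, rfl, rfl⟩
    · rintro ⟨h1, x, rfl, rfl⟩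
      refine ⟨⟨h1, ?_⟩, x, rfl⟩
      rw [nat_two]
      have := hl2 x
      interval_cases l x
      · exact Or.inl rfl
      · exact Or.inr rfl
  have hfin : {z | z ∈ h}.Finite := by
    have h1 := (finIn_iff hM fun z hz => hM.trans _ hZM z hz).1 hZf
    refine ((h1.prod (Set.toFinite {nat 0, nat 1})).image fun t => pair t.1 t.2).subset ?_
    intro w hw
    obtain ⟨a, ha, i, hi, rfl⟩ := ZFSet.mem_prod.1 (ZFSet.mem_sep.1 hw).1
    exact ⟨(a, i), ⟨ha, (nat_two i).1 hi⟩, rfl⟩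
  have hhM : h ∈ sy.Ms π := by
    refine fin_mem hM (fun w hw => ?_) hfin
    obtain ⟨a, ha, i, hi, rfl⟩ := ZFSet.mem_prod.1 (ZFSet.mem_sep.1 hw).1
    exact hM.pair_mem (hM.trans _ hZM a ha) (hM.trans _ (hM.nat_mem 2) i hi)
  refine ⟨h, hhM, ⟨fun w hw => (ZFSet.mem_sep.1 hw).1, fun a ha => ?_⟩, ?_⟩
  · obtain ⟨x, rfl⟩ := (mem_A g).1 (hZ ha)
    refine ⟨nat (l x), (hmem _ _).2 ⟨ha, x, rfl, rfl⟩, fun i hi => ?_⟩
    obtain ⟨-, y, h1, rfl⟩ := (hmem _ _).1 hi
    rw [val_xN_inj g h1]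
  · intro a ha b hb c hc i j k hi hj hk
    obtain ⟨-, x, rfl, h1⟩ := (hmem _ _).1 hi
    obtain ⟨-, y, rfl, h2⟩ := (hmem _ _).1 hj
    obtain ⟨-, z, rfl, h3⟩ := (hmem _ _).1 hk
    rw [nat_injective h1, nat_injective h2, nat_injective h3, mem_R0 g, mem_R1 g]
    constructor
    · rintro rfl
      change ((x 0).val + (y 0).val + ((x + y) 0).val) % 2 = 0
      rw [Finsupp.add_apply]
      generalize x 0 = u
      generalize y 0 = w
      revert u w
      decide
    · rintro ⟨rfl, rfl, rfl⟩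
      change ((v0 0).val + (v0 0).val + (v0 0).val) % 2 = 1
      have h4 : v0 0 = 1 := Finsupp.single_eq_same
      rw [h4]
      decide

set_option maxHeartbeats 2000000 in
/-- The system has no solution. -/
theorem no_sol {h : ZFSet.{0}} (hh : h ∈ sy.Ms π)
    (hsol : Sol (π.val R0N) (π.val R1N) (π.val AN) h) : False := by
  obtain ⟨⟨hsub, hfun⟩, heq⟩ := hsol
  obtain ⟨th, ⟨hth, hth'⟩, rfl⟩ := hh
  have hA : ∀ a, π.val (xN a) ∈ π.val AN := fun a => (mem_A g).2 ⟨a, rfl⟩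
  have h1 : ∀ a : V, ∃ i : ℕ, i < 2 ∧ pair (π.val (xN a)) (nat i) ∈ π.val th := by
    intro a
    obtain ⟨i, hi, -⟩ := hfun _ (hA a)
    rcases (nat_two i).1 (ZFSet.pair_mem_prod.1 (hsub hi)).2 with rfl | rfl
    · exact ⟨0, by omega, hi⟩
    · exact ⟨1, by omega, hi⟩
  choose l hl2 hl using h1
  have huniq : ∀ a i, pair (π.val (xN a)) (nat i) ∈ π.val th → i = l a := by
    intro a i hi
    obtain ⟨j, -, hj⟩ := hfun _ (hA a)
    have h2 := (hj _ hi).trans (hj _ (hl a)).symm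
    exact nat_injective h2
  have hadd : ∀ a b, (l a + l b + l (a + b)) % 2 = 0 := fun a b =>
    (heq _ (hA a) _ (hA b) _ (hA (a + b)) _ _ _ (hl a) (hl b) (hl (a + b))).1
      ((mem_R0 g).2 rfl)
  have hv : (l v0 + l v0 + l v0) % 2 = 1 :=
    (heq _ (hA v0) _ (hA v0) _ (hA v0) _ _ _ (hl v0) (hl v0) (hl v0)).2
      ((mem_R1 g).2 ⟨rfl, rfl, rfl⟩)
  -- the support
  obtain ⟨W0, hW0, hsp⟩ := hs_supp hth'
  have hWfg : (W0 ⊔ Submodule.span K {v0}).FG :=
    (Module.Finite.iff_fg.1 hW0).sup (Submodule.fg_span_singleton v0)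
  obtain ⟨s, hs⟩ := hWfg
  obtain ⟨W, hW⟩ : ∃ W : Submodule K V, W = Submodule.span K (s : Set V) := ⟨_, rfl⟩
  have hWf : Module.Finite K W := by
    rw [hW]
    exact Module.Finite.span_finset K s
  have hWsp : Sp W th := hsp.mono (by rw [hW, hs]; exact le_sup_left)
  have hvW : v0 ∈ W := by
    rw [hW, hs]
    exact (le_sup_right : Submodule.span K {v0} ≤ _) (Submodule.mem_span_singleton_self v0)
  obtain ⟨x, hx⟩ := exists_notMem W
  have hpr : ∀ a, opN (xN a) (check (nat (l x))) ∈ π.N := fun a => π.opN_mem (g.x a) (π.nat_Z _)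
  have hval : ∀ a, π.val (opN (xN a) (check (nat (l x)))) = pair (π.val (xN a)) (nat (l x)) := by
    intro a
    have h2 : π.val (check (nat (l x))) = nat (l x) := π.hat_nat _
    rw [π.val_opN (g.x a) (π.nat_Z _), h2]
  have h2 := hl x
  rw [← hval] at h2
  obtain ⟨k, hk⟩ := (π.val_mem_iff (hpr x) hth).1 h2
  obtain ⟨q, hq⟩ : ∃ q, q = rs (W ⊔ Submodule.span K {x}) (π.g k) := ⟨_, rfl⟩
  have hspo : Sp (W ⊔ Submodule.span K {x}) (opN (xN x) (check (nat (l x)))) := by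
    intro f hf p
    rw [act_opN (acH_top f), act_check (acH_top f)]
    refine feq_opN (sp_xN ?_ f hf p) (Feq.refl _ _)
    exact (le_sup_right : Submodule.span K {x} ≤ _) (Submodule.mem_span_singleton_self x)
  have hqf : Fmem (opN (xN x) (check (nat (l x)))) th q := by
    rw [hq]
    exact restr_fmem hspo (hWsp.mono le_sup_left) hk
  have hmove : ∀ f ∈ fx W, (∃ n, π.g n ≤ mv f q) → l (f x) = l x := by
    rintro f hf ⟨n, hn⟩
    have h3 := fmem_act' (e := acH f) hqf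
    rw [act_opN (acH_top f), act_check (acH_top f), act_xN] at h3
    have h4 : Fmem (opN (xN (f x)) (check (nat (l x)))) th (π.g n) :=
      (fmem_congr (Feq.refl _ _) (hWsp f hf _) h3).mono hn
    have h5 := (π.val_mem_iff (hpr (f x)) hth).2 ⟨n, h4⟩
    rw [hval] at h5
    exact (huniq _ _ h5).symm
  have hdense : ∀ z ∈ W, ∃ y, l y = l x ∧ l (x + y + z) = l x := by
    intro z hz
    have h3 : Fmem emp (Sys.nm Cd (Dm s q x z)) (π.g k) := by
      refine fmem_iff.2 fun p hp => ?_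
      obtain ⟨r, hr, hrD⟩ := dense_Dm (s := s) (q := q) (p := p) (x := x) (z := z)
        (by rw [← hW]; exact hx) (by rw [← hW]; exact hz)
        (fun a y ha => by
          rw [← hW]
          rw [hq] at ha
          exact ha.2)
        (hp.trans (by rw [hq]; exact le_rs _ _))
      exact ⟨r, hr, emp, r, ⟨⟨r, hrD⟩, rfl, rfl⟩, le_rfl, Feq.refl _ _⟩
    have h4 := (π.val_mem_iff g.e (g.d s q x z)).2 ⟨k, h3⟩
    obtain ⟨y', hy', c, hc, ⟨n, hn⟩, -⟩ := π.mem_val.1 h4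
    obtain ⟨⟨c', hc'⟩, -, h5⟩ := hc
    have h6 : c' = c := h5
    subst h6
    obtain ⟨y, f, hf, f', hf', h7, h8, h9, h10⟩ := hc'
    rw [← hW] at hf hf'
    refine ⟨y, ?_, ?_⟩
    · rw [← h7]
      exact hmove f hf ⟨n, hn.trans h9⟩
    · rw [← h8]
      exact hmove f' hf' ⟨n, hn.trans h10⟩
  obtain ⟨y, hy1, hy2⟩ := hdense 0 W.zero_mem
  obtain ⟨y', hy1', hy2'⟩ := hdense v0 hvW
  have e1 := hadd x y
  have e2 := hadd x y'
  have e3 := hadd (x + y') v0
  rw [add_zero] at hy2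
  have b1 := hl2 x
  have b2 := hl2 v0
  have b3 := hl2 (x + y')
  omega

end

end Pool.Agent.R598.LX
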