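import Pool.Agent.R598.LX.Lin

/-!
# A model of ZF in which the compactness principle for `K_2` holds and the compactness principle
for `3LIN_2` fails
-/

set_option autoImplicit false

namespace Pool.Agent.R598.LX

open Pool.Agent.W868 Pool.Agent.W868.PName Pool.Agent.R598.SY Pool.Agent.R598.PM
open ZFSet (pair)

theorem main : ∃ M : Set ZFSet.{0}, M.Countable ∧ IsZF M ∧ KK2 M ∧ ¬ K3LIN2 M := by
  let R : Set (Rule Cd) := sy.rules ∪ ((Set.range fun s : Finset V => r1 (Submodule.span K s)) ∪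
    ((Set.range fun s : Finset V => r2 (Submodule.span K s)) ∪
      (Set.range fun s : Finset V => r3 (Submodule.span K s))))
  have hR : R.Countable := by
    refine (Set.Finite.countable ?_).union ((Set.countable_range _).union
      ((Set.countable_range _).union (Set.countable_range _)))
    unfold Sys.rules
    exact Set.toFinite _
  let A : Set (PName Cd) := (Set.range xN ∪ Set.range fun t : V × V × V =>
    opN (xN t.1) (opN (xN t.2.1) (xN t.2.2))) ∪ ({emp, AN, R0N, R1N} ∪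
      Set.range fun t : Finset V × Cd × V × V => Sys.nm Cd (Dm t.1 t.2.1 t.2.2.1 t.2.2.2))
  have hA : A.Countable := ((Set.countable_range _).union (Set.countable_range _)).union
    ((Set.toFinite _).countable.union (Set.countable_range _))
  obtain ⟨π, hAN, -, hcl⟩ := exists_pkg R hR A hA ⊤
  have hCld : sy.Cld π := fun ρ hρ => hcl ρ (Or.inl hρ)
  have hM : IsZF (sy.Ms π) := SY.T_ZF.main SY.T_TRU.main SY.T_SEP.main _ _ π hCld
  have hfg : ∀ W : Submodule K V, Module.Finite K W → ∃ s : Finset V, Submodule.span K s = W :=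
    fun W hW => Module.Finite.iff_fg.1 hW
  have gl : Gl π :=
    { e := hAN (Or.inr (Or.inl (Or.inl rfl)))
      a := fun W hW q hq => by
        obtain ⟨s, rfl⟩ := hfg W hW
        exact (hcl _ (Or.inr (Or.inl ⟨s, rfl⟩)) q hq).1
      b := fun W hW q hq => by
        obtain ⟨s, rfl⟩ := hfg W hW
        exact (hcl _ (Or.inr (Or.inr (Or.inl ⟨s, rfl⟩))) q hq).1
      c := fun W hW q hq => by
        obtain ⟨s, rfl⟩ := hfg W hW
        exact (hcl _ (Or.inr (Or.inr (Or.inr ⟨s, rfl⟩))) q hq).1 }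
  have gx : Gx π :=
    { e := hAN (Or.inr (Or.inl (Or.inl rfl)))
      x := fun a => hAN (Or.inl (Or.inl ⟨a, rfl⟩))
      o := fun a b c => hAN (Or.inl (Or.inr ⟨(a, b, c), rfl⟩))
      A := hAN (Or.inr (Or.inl (Or.inr (Or.inl rfl))))
      r0 := hAN (Or.inr (Or.inl (Or.inr (Or.inr (Or.inl rfl)))))
      r1 := hAN (Or.inr (Or.inl (Or.inr (Or.inr (Or.inr rfl)))))
      d := fun s q x z => hAN (Or.inr (Or.inr ⟨(s, q, x, z), rfl⟩)) }
  refine ⟨_, (π.cnt.mono fun _ h => h.1).image _, hM, kk2_of_ac2 hM (ac2 gl hCld), fun h => ?_⟩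
  obtain ⟨f, hf, hf'⟩ := h (π.val AN) ⟨_, ⟨gx.A, hs_AN⟩, rfl⟩ (π.val R0N)
    ⟨_, ⟨gx.r0, hs_R0N⟩, rfl⟩ (π.val R1N) ⟨_, ⟨gx.r1, hs_R1N⟩, rfl⟩
    fun Z hZM hZ hZf => fin_sol gx hM hZM hZ hZf
  exact no_sol gx hf hf'

end Pool.Agent.R598.LX
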